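import Pool.Agent.LibGoldenMean.Chain

/-!
Bounds for cylinder probabilities of the golden-mean chain.
-/

open MeasureTheory ProbabilityTheory Filter
open scoped ENNReal

namespace Pool.Agent.LibGoldenMean

noncomputable section

/-- potential used in the telescoping of transition probabilities -/
def pot (a : Bool) : ℝ := if a = true then 1 else lam

lemma pot_pos (a : Bool) : 0 < pot a := by
  unfold pot; split_ifs
  · norm_num
  · exact lam_pos

lemma one_le_pot (a : Bool) : 1 ≤ pot a := by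
  unfold pot; split_ifs
  · norm_num
  · exact one_lt_lam.le

lemma pot_le (a : Bool) : pot a ≤ lam := by
  unfold pot; split_ifs
  · exact one_lt_lam.le
  · exact le_rfl

lemma trans_le (a c : Bool) : trans a c ≤ ENNReal.ofReal (lam⁻¹ * (pot c / pot a)) := by
  have hl := lam_pos
  cases a <;> cases c
  · rw [trans_ff]; simp [pot, lam_pos.ne']
  · rw [trans_ft]
    apply ENNReal.ofReal_le_ofReal
    simp [pot, sq]
  · rw [trans_tf, ← ENNReal.ofReal_one]
    apply ENNReal.ofReal_le_ofReal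
    simp [pot, lam_pos.ne']
  · rw [trans_tt]; exact bot_le

lemma le_trans_of_ne_zero (a c : Bool) (h : trans a c ≠ 0) :
    ENNReal.ofReal (lam⁻¹ * (pot c / pot a)) ≤ trans a c := by
  have hl := lam_pos
  cases a <;> cases c
  · rw [trans_ff]; simp [pot, lam_pos.ne']
  · rw [trans_ft]
    apply ENNReal.ofReal_le_ofReal
    simp [pot, sq]
  · rw [trans_tf, ← ENNReal.ofReal_one]
    apply ENNReal.ofReal_le_ofReal
    simp [pot, lam_pos.ne']
  · exact absurd trans_tt h

lemma prod_trans_le (n : ℕ) (w : ℕ → Bool) :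
    ∏ i ∈ Finset.range n, trans (w i) (w (i + 1)) ≤
      ENNReal.ofReal (lam⁻¹ ^ n * (pot (w n) / pot (w 0))) := by
  induction n with
  | zero => simp [(pot_pos (w 0)).ne']
  | succ n ih =>
    rw [Finset.prod_range_succ]
    refine (mul_le_mul' ih (trans_le _ _)).trans ?_
    have hl := lam_inv_pos
    have h0 := pot_pos (w 0)
    have h1 := pot_pos (w n)
    have h2 := pot_pos (w (n + 1))
    rw [← ENNReal.ofReal_mul (by positivity)]
    apply ENNReal.ofReal_le_ofReal
    apply le_of_eq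
    rw [pow_succ]
    generalize lam⁻¹ = l
    field_simp

lemma le_prod_trans (n : ℕ) (w : ℕ → Bool)
    (h : ∏ i ∈ Finset.range n, trans (w i) (w (i + 1)) ≠ 0) :
    ENNReal.ofReal (lam⁻¹ ^ n * (pot (w n) / pot (w 0))) ≤
      ∏ i ∈ Finset.range n, trans (w i) (w (i + 1)) := by
  induction n with
  | zero => simp [(pot_pos (w 0)).ne']
  | succ n ih =>
    rw [Finset.prod_range_succ] at h ⊢
    have h1 := left_ne_zero_of_mul h
    have h2 := right_ne_zero_of_mul h
    refine le_trans ?_ (mul_le_mul' (ih h1) (le_trans_of_ne_zero _ _ h2))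
    have hl := lam_inv_pos
    have h0 := pot_pos (w 0)
    have h1 := pot_pos (w n)
    have h2 := pot_pos (w (n + 1))
    rw [← ENNReal.ofReal_mul (by positivity)]
    apply ENNReal.ofReal_le_ofReal
    apply le_of_eq
    rw [pow_succ]
    generalize lam⁻¹ = l
    field_simp

lemma stat_le_one (c : Bool) : stat c ≤ 1 := prob_le_one

lemma half_le_stat_false : ENNReal.ofReal (1 / 2) ≤ stat false := by
  have h1 := stat_add
  rw [stat_true] at h1
  by_contra hcon
  push Not at hcon
  have h3 : ENNReal.ofReal (lam⁻¹ ^ 2) ≤ 1 := by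
    rw [lam_inv_sq, ← ENNReal.ofReal_one]
    exact ENNReal.ofReal_le_ofReal (by linarith [one_lt_lam])
  have h4 : ENNReal.ofReal (lam⁻¹ ^ 2) * stat false ≤ stat false := by
    calc ENNReal.ofReal (lam⁻¹ ^ 2) * stat false ≤ 1 * stat false := mul_le_mul_left h3 _
      _ = stat false := one_mul _
  have h5 : (1 : ℝ≥0∞) < ENNReal.ofReal (1 / 2) + ENNReal.ofReal (1 / 2) := by
    calc (1 : ℝ≥0∞) = stat false + ENNReal.ofReal (lam⁻¹ ^ 2) * stat false := h1.symm
      _ ≤ stat false + stat false := by gcongr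
      _ < _ := ENNReal.add_lt_add hcon hcon
  rw [← ENNReal.ofReal_add (by norm_num) (by norm_num)] at h5
  norm_num at h5

lemma le_stat (c : Bool) : ENNReal.ofReal (lam⁻¹ ^ 2 / 2) ≤ stat c := by
  cases c
  · refine le_trans (ENNReal.ofReal_le_ofReal ?_) half_le_stat_false
    rw [lam_inv_sq]; linarith [one_lt_lam]
  · rw [stat_true]
    calc ENNReal.ofReal (lam⁻¹ ^ 2 / 2) = ENNReal.ofReal (lam⁻¹ ^ 2) * ENNReal.ofReal (1 / 2) := by
          rw [← ENNReal.ofReal_mul (by positivity)]; ring_nf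
      _ ≤ _ := by gcongr; exact half_le_stat_false

/-- upper bound for the probability of a cylinder with `n + 1` letters -/
lemma chainLaw_cyl_le (k : ℤ) (n : ℕ) (w : ℕ → Bool) :
    chainLaw {x | ∀ i : ℕ, i ≤ n → x (k + i) = w i} ≤ ENNReal.ofReal (lam * lam⁻¹ ^ n) := by
  rw [chainLaw_cylinder]
  calc stat (w 0) * ∏ i ∈ Finset.range n, trans (w i) (w (i + 1))
      ≤ 1 * ENNReal.ofReal (lam⁻¹ ^ n * (pot (w n) / pot (w 0))) :=
        mul_le_mul' (stat_le_one _) (prod_trans_le n w)
    _ ≤ _ := by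
      rw [one_mul]
      apply ENNReal.ofReal_le_ofReal
      rw [mul_comm]
      have h1 : pot (w n) / pot (w 0) ≤ lam := by
        rw [div_le_iff₀ (pot_pos _)]
        nlinarith [one_le_pot (w 0), pot_le (w n), lam_pos]
      have := lam_inv_pos
      gcongr

/-- lower bound for the probability of a cylinder of positive probability -/
lemma le_chainLaw_cyl (k : ℤ) (n : ℕ) (w : ℕ → Bool)
    (h : chainLaw {x | ∀ i : ℕ, i ≤ n → x (k + i) = w i} ≠ 0) :
    ENNReal.ofReal (lam⁻¹ ^ 3 / 2 * lam⁻¹ ^ n) ≤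
      chainLaw {x | ∀ i : ℕ, i ≤ n → x (k + i) = w i} := by
  rw [chainLaw_cylinder] at h ⊢
  have h2 := right_ne_zero_of_mul h
  refine le_trans ?_ (mul_le_mul' (le_stat (w 0)) (le_prod_trans n w h2))
  have hl := lam_inv_pos
  rw [← ENNReal.ofReal_mul (by positivity)]
  apply ENNReal.ofReal_le_ofReal
  have h1 : lam⁻¹ ≤ pot (w n) / pot (w 0) := by
    rw [le_div_iff₀ (pot_pos _)]
    calc lam⁻¹ * pot (w 0) ≤ lam⁻¹ * lam := by gcongr; exact pot_le _
      _ = 1 := inv_mul_cancel₀ lam_pos.ne'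
      _ ≤ _ := one_le_pot _
  calc lam⁻¹ ^ 3 / 2 * lam⁻¹ ^ n = lam⁻¹ ^ 2 / 2 * (lam⁻¹ ^ n * lam⁻¹) := by ring
    _ ≤ _ := by gcongr

end

end Pool.Agent.LibGoldenMean
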