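import Pool.Agent.LibGoldenMean.Defs

/-!
The golden-mean shift with its measure of maximal entropy, realised as a coding of i.i.d. bits.
-/

open MeasureTheory ProbabilityTheory Filter
open scoped ENNReal

namespace Pool.Agent.LibGoldenMean

noncomputable section

/-- golden ratio -/
def lam : ℝ := Real.goldenRatio

lemma lam_pos : 0 < lam := Real.goldenRatio_pos
lemma one_lt_lam : 1 < lam := Real.one_lt_goldenRatio
lemma lam_sq : lam ^ 2 = lam + 1 := Real.goldenRatio_sq
lemma lam_inv : lam⁻¹ = lam - 1 := by
  have h : lam * (lam - 1) = 1 := by nlinarith [lam_sq]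
  exact inv_eq_of_mul_eq_one_right h
lemma lam_inv_sq : lam⁻¹ ^ 2 = 2 - lam := by
  rw [lam_inv]; nlinarith [lam_sq]
lemma lam_lt_two : lam < 2 := by
  nlinarith [lam_sq, one_lt_lam, lam_pos]
lemma lam_inv_pos : 0 < lam⁻¹ := inv_pos.2 lam_pos

/-- Bernoulli measure with mass `lam⁻¹` at `false` and `lam⁻²` at `true`. -/
def beta : Measure Bool :=
  ENNReal.ofReal (lam⁻¹) • Measure.dirac false + ENNReal.ofReal (lam⁻¹ ^ 2) • Measure.dirac true

lemma beta_false : beta {false} = ENNReal.ofReal (lam⁻¹) := by
  simp [beta]

lemma beta_true : beta {true} = ENNReal.ofReal (lam⁻¹ ^ 2) := by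
  simp [beta]

lemma beta_univ : beta Set.univ = 1 := by
  simp only [beta, Measure.add_apply, Measure.smul_apply, measure_univ, smul_eq_mul, mul_one]
  rw [← ENNReal.ofReal_add lam_inv_pos.le (by positivity), lam_inv_sq, lam_inv]
  norm_num

instance : IsProbabilityMeasure beta := ⟨beta_univ⟩

/-- the i.i.d. driving noise -/
def noise : Measure (ℤ → Bool) := Measure.infinitePi (fun _ : ℤ => beta)

instance : IsProbabilityMeasure noise := by unfold noise; infer_instance

/-- the run of `true`s of `b` ending at `n` is finite and of odd length -/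
def oddRun (b : ℤ → Bool) (n : ℤ) : Prop :=
  ∃ l : ℕ, Odd l ∧ (∀ j < l, b (n - j) = true) ∧ b (n - l) = false

open Classical in
/-- the coding map producing the golden-mean chain out of the noise -/
def code (b : ℤ → Bool) : ℤ → Bool := fun n => decide (oddRun b n)

lemma code_eq_true {b : ℤ → Bool} {n : ℤ} : code b n = true ↔ oddRun b n := by
  simp [code]

lemma code_eq_false {b : ℤ → Bool} {n : ℤ} : code b n = false ↔ ¬ oddRun b n := by
  simp [code]

/-- every run is finite -/
def goodSet : Set (ℤ → Bool) := {b | ∀ n : ℤ, ∃ j : ℕ, b (n - j) = false}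

lemma oddRun_succ {b : ℤ → Bool} (hb : b ∈ goodSet) (n : ℤ) :
    oddRun b (n + 1) ↔ (b (n + 1) = true ∧ ¬ oddRun b n) := by
  constructor
  · rintro ⟨l, hl, h1, h2⟩
    have hl0 : 0 < l := hl.pos
    refine ⟨by simpa using h1 0 hl0, ?_⟩
    rintro ⟨m, hm, g1, g2⟩
    -- l = l' + 1
    obtain ⟨l', rfl⟩ : ∃ l', l = l' + 1 := ⟨l - 1, by omega⟩
    have e1 : ∀ j < l', b (n - j) = true := by
      intro j hj
      have := h1 (j + 1) (by omega)
      rw [show n + 1 - ((j + 1 : ℕ) : ℤ) = n - j by push_cast; ring] at this
      exact this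
    have e2 : b (n - l') = false := by
      rw [show n + 1 - ((l' + 1 : ℕ) : ℤ) = n - l' by push_cast; ring] at h2
      exact h2
    have : m = l' := by
      rcases lt_trichotomy m l' with h | h | h
      · have := e1 m h; rw [g2] at this; exact absurd this (by decide)
      · exact h
      · have := g1 l' h; rw [e2] at this; exact absurd this (by decide)
    subst this
    rw [Nat.odd_iff] at hl hm
    omega
  · rintro ⟨h1, h2⟩
    classical
    let l' := Nat.find (hb n)
    have e2 : b (n - l') = false := Nat.find_spec (hb n)
    have e1 : ∀ j < l', b (n - j) = true := fun j hj => by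
      have := Nat.find_min (hb n) hj
      simpa using this
    have hodd : ¬ Odd l' := fun h => h2 ⟨l', h, e1, e2⟩
    refine ⟨l' + 1, ?_, ?_, ?_⟩
    · rw [Nat.not_odd_iff_even] at hodd
      exact hodd.add_one
    · intro j hj
      rcases Nat.eq_zero_or_pos j with rfl | hj0
      · simpa using h1
      · have := e1 (j - 1) (by omega)
        rw [show n - ((j - 1 : ℕ) : ℤ) = n + 1 - j by
          have : ((j - 1 : ℕ) : ℤ) = (j : ℤ) - 1 := by omega
          rw [this]; ring] at this
        exact this
    · rw [show n + 1 - ((l' + 1 : ℕ) : ℤ) = n - l' by push_cast; ring]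
      exact e2

/-- sigma-algebra of coordinates `≤ n` -/
@[instance_reducible] def past (n : ℤ) : MeasurableSpace (ℤ → Bool) :=
  ⨆ j ∈ Set.Iic n, MeasurableSpace.comap (fun b : ℤ → Bool => b j) inferInstance

lemma past_le (n : ℤ) : past n ≤ (inferInstance : MeasurableSpace (ℤ → Bool)) := by
  unfold past
  refine iSup₂_le fun j _ => ?_
  exact (measurable_pi_apply j).comap_le

lemma past_mono {m n : ℤ} (h : m ≤ n) : past m ≤ past n := by
  unfold past
  refine iSup₂_le fun j hj => ?_
  exact le_iSup₂_of_le j (le_trans (Set.mem_Iic.1 hj) h) le_rfl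

lemma measurableSet_coord {n j : ℤ} (hj : j ≤ n) (c : Bool) :
    MeasurableSet[past n] {b : ℤ → Bool | b j = c} := by
  have h : MeasurableSpace.comap (fun b : ℤ → Bool => b j) inferInstance ≤ past n :=
    le_iSup₂_of_le (f := fun j (_ : j ∈ Set.Iic n) =>
      MeasurableSpace.comap (fun b : ℤ → Bool => b j) inferInstance) j hj le_rfl
  refine h _ ?_
  exact ⟨{c}, MeasurableSet.singleton c, by ext b; simp⟩

lemma measurableSet_oddRun {n m : ℤ} (h : n ≤ m) :
    MeasurableSet[past m] {b : ℤ → Bool | oddRun b n} := by
  have : {b : ℤ → Bool | oddRun b n} =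
      ⋃ l : ℕ, ⋃ (_ : Odd l), ((⋂ j : ℕ, ⋂ (_ : j < l), {b | b (n - j) = true}) ∩
        {b | b (n - l) = false}) := by
    ext b
    simp only [oddRun, Set.mem_ofPred_eq, Set.mem_iUnion, Set.mem_inter_iff, Set.mem_iInter,
      exists_prop]
  rw [this]
  refine MeasurableSet.iUnion fun l => MeasurableSet.iUnion fun _ => ?_
  refine MeasurableSet.inter ?_ (measurableSet_coord (by omega) _)
  exact MeasurableSet.iInter fun j => MeasurableSet.iInter fun _ =>
    measurableSet_coord (by omega) _

lemma measurableSet_code {n m : ℤ} (h : n ≤ m) (c : Bool) :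
    MeasurableSet[past m] {b : ℤ → Bool | code b n = c} := by
  cases c
  · have : {b : ℤ → Bool | code b n = false} = {b | oddRun b n}ᶜ := by
      ext b; simp [code_eq_false]
    rw [this]
    exact (measurableSet_oddRun h).compl
  · have : {b : ℤ → Bool | code b n = true} = {b | oddRun b n} := by
      ext b; simp [code_eq_true]
    rw [this]
    exact measurableSet_oddRun h

lemma measurable_code : Measurable code := by
  refine measurable_pi_lambda _ fun n => ?_
  refine measurable_to_countable' fun c => ?_
  exact past_le n _ (measurableSet_code le_rfl c)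


lemma noise_coord (n : ℤ) (s : Set Bool) : noise {b | b n ∈ s} = beta s := by
  have h := (measurePreserving_eval_infinitePi (fun _ : ℤ => beta) n).measure_preimage
    (s := s) (MeasurableSet.of_discrete).nullMeasurableSet
  exact h

lemma iIndep_coord :
    iIndep (fun j : ℤ => MeasurableSpace.comap (fun b : ℤ → Bool => b j) inferInstance) noise := by
  have := iIndepFun_infinitePi (P := fun _ : ℤ => beta) (X := fun _ (b : Bool) => b)
    (fun _ => measurable_id)
  exact this

lemma indep_past (n m : ℤ) (h : n < m) (s : Set (ℤ → Bool)) (hs : MeasurableSet[past n] s)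
    (T : Set Bool) : noise (s ∩ {b | b m ∈ T}) = noise s * beta T := by
  have hd : Disjoint (Set.Iic n) ({m} : Set ℤ) := by
    rw [Set.disjoint_singleton_right]; simp [h]
  have h1 := indep_iSup_of_disjoint (m := fun j : ℤ =>
    MeasurableSpace.comap (fun b : ℤ → Bool => b j) inferInstance) (μ := noise)
    (fun j => (measurable_pi_apply j).comap_le) iIndep_coord hd
  rw [Indep_iff] at h1
  have h2 := h1 s {b | b m ∈ T} hs (by
    have : MeasurableSpace.comap (fun b : ℤ → Bool => b m) inferInstance ≤
      ⨆ i ∈ ({m} : Set ℤ), MeasurableSpace.comap (fun b : ℤ → Bool => b i) inferInstance :=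
      le_iSup₂_of_le (f := fun i (_ : i ∈ ({m} : Set ℤ)) =>
        MeasurableSpace.comap (fun b : ℤ → Bool => b i) inferInstance) m rfl le_rfl
    refine this _ ⟨T, MeasurableSet.of_discrete, rfl⟩)
  rw [h2, noise_coord]

lemma noise_run (n : ℤ) (m : ℕ) :
    noise {b | ∀ j : ℕ, j < m → b (n - j) = true} = (beta {true}) ^ m := by
  have : {b : ℤ → Bool | ∀ j : ℕ, j < m → b (n - j) = true} =
      Set.pi (↑((Finset.range m).image (fun j : ℕ => n - (j : ℤ)))) (fun _ => ({true} : Set Bool)) := by
    ext b
    simp [Set.mem_pi]
  rw [this, noise, Measure.infinitePi_pi _ (fun _ _ => MeasurableSet.of_discrete)]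
  rw [Finset.prod_const, Finset.card_image_of_injective, Finset.card_range]
  intro a b hab
  simpa using hab

lemma beta_true_lt_one : beta {true} < 1 := by
  rw [beta_true, lam_inv_sq]
  rw [← ENNReal.ofReal_one]
  exact (ENNReal.ofReal_lt_ofReal_iff (by norm_num)).2 (by linarith [one_lt_lam])

lemma ae_goodSet : ∀ᵐ b ∂noise, b ∈ goodSet := by
  rw [goodSet]
  simp only [Set.mem_ofPred_eq]
  rw [ae_all_iff]
  intro n
  rw [ae_iff]
  have hsub : ∀ m : ℕ, noise {b | ¬ ∃ j : ℕ, b (n - j) = false} ≤ (beta {true}) ^ m := by
    intro m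
    rw [← noise_run n m]
    refine measure_mono ?_
    intro b hb j _
    simp only [Set.mem_ofPred_eq, not_exists, Bool.not_eq_false] at hb
    exact hb j
  have hlim := ENNReal.tendsto_pow_atTop_nhds_zero_of_lt_one beta_true_lt_one
  exact le_antisymm (ge_of_tendsto' hlim hsub) bot_le

/-- allowed noise values for a transition `a → c` -/
def allow (a c : Bool) : Set Bool :=
  if a = true then (if c = true then ∅ else Set.univ) else {c}

/-- transition matrix of the golden-mean chain -/
def trans (a c : Bool) : ℝ≥0∞ := beta (allow a c)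

lemma trans_ff : trans false false = ENNReal.ofReal (lam⁻¹) := by
  simp [trans, allow, beta_false]
lemma trans_ft : trans false true = ENNReal.ofReal (lam⁻¹ ^ 2) := by
  simp [trans, allow, beta_true]
lemma trans_tf : trans true false = 1 := by
  have : allow true false = Set.univ := by simp [allow]
  rw [trans, this, beta_univ]
lemma trans_tt : trans true true = 0 := by
  simp [trans, allow]

lemma code_succ_iff {b : ℤ → Bool} (hb : b ∈ goodSet) (n : ℤ) (a c : Bool) (ha : code b n = a) :
    code b (n + 1) = c ↔ b (n + 1) ∈ allow a c := by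
  have h := oddRun_succ hb n
  cases a <;> cases c
  · rw [code_eq_false] at ha ⊢
    simp only [allow]
    simp [h, ha]
  · rw [code_eq_false] at ha
    rw [code_eq_true]
    simp only [allow]
    simp [h, ha]
  · rw [code_eq_true] at ha
    rw [code_eq_false]
    simp [allow, h, ha]
  · rw [code_eq_true] at ha ⊢
    simp [allow, h, ha]

/-- cylinder event for the coded process, as a set of noise configurations -/
def cylB (k : ℤ) (n : ℕ) (w : ℕ → Bool) : Set (ℤ → Bool) := {b | ∀ i : ℕ, i ≤ n → code b (k + i) = w i}

lemma measurableSet_cylB (k : ℤ) (n : ℕ) (w : ℕ → Bool) :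
    MeasurableSet[past (k + n)] (cylB k n w) := by
  have : cylB k n w = ⋂ i : ℕ, ⋂ (_ : i ≤ n), {b | code b (k + i) = w i} := by
    ext b; simp [cylB]
  rw [this]
  exact MeasurableSet.iInter fun i => MeasurableSet.iInter fun hi =>
    measurableSet_code (by omega) _

lemma noise_cylB (k : ℤ) (n : ℕ) (w : ℕ → Bool) :
    noise (cylB k n w) = noise {b | code b k = w 0} * ∏ i ∈ Finset.range n, trans (w i) (w (i + 1)) := by
  induction n with
  | zero =>
    simp [cylB]
  | succ n ih =>
    have hae : (cylB k (n + 1) w : Set (ℤ → Bool)) =ᵐ[noise]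
        (cylB k n w ∩ {b | b (k + n + 1) ∈ allow (w n) (w (n + 1))} : Set (ℤ → Bool)) := by
      filter_upwards [ae_goodSet] with b hb
      apply propext
      change b ∈ cylB k (n + 1) w ↔ b ∈ cylB k n w ∩ {b | b (k + n + 1) ∈ allow (w n) (w (n + 1))}
      simp only [cylB, Set.mem_inter_iff, Set.mem_ofPred_eq]
      constructor
      · intro h
        refine ⟨fun i hi => h i (by omega), ?_⟩
        have h1 := h n (by omega)
        have h2 := h (n + 1) le_rfl
        rw [← code_succ_iff hb (k + n) (w n) (w (n + 1)) h1]
        rw [← h2]; push_cast; ring_nf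
      · rintro ⟨h1, h2⟩ i hi
        rcases Nat.lt_or_ge i (n + 1) with h | h
        · exact h1 i (by omega)
        · have hi' : i = n + 1 := by omega
          subst hi'
          have := (code_succ_iff hb (k + n) (w n) (w (n + 1)) (h1 n le_rfl)).2 h2
          rw [← this]; push_cast; ring_nf
    rw [measure_congr hae, indep_past (k + n) (k + n + 1) (by omega) _ (measurableSet_cylB k n w), ih,
      Finset.prod_range_succ, mul_assoc]
    rfl


/-- the shift as a measurable equivalence -/
def shiftEquiv (S : Type*) [MeasurableSpace S] : (ℤ → S) ≃ᵐ (ℤ → S) where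
  toFun := shift
  invFun := fun x n => x (n - 1)
  left_inv := fun x => by funext n; simp [shift]
  right_inv := fun x => by funext n; simp [shift]
  measurable_toFun := measurable_pi_lambda _ fun n => measurable_pi_apply (n + 1)
  measurable_invFun := measurable_pi_lambda _ fun n => measurable_pi_apply (n - 1)

@[simp] lemma shiftEquiv_apply {S : Type*} [MeasurableSpace S] (x : ℤ → S) :
    shiftEquiv S x = shift x := rfl

lemma measurable_shift {S : Type*} [MeasurableSpace S] : Measurable (shift : (ℤ → S) → (ℤ → S)) :=
  (shiftEquiv S).measurable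

/-- the law of an i.i.d. process is shift invariant -/
lemma measurePreserving_shift_iid {A : Type*} [MeasurableSpace A] (ν : Measure A)
    [IsProbabilityMeasure ν] :
    MeasurePreserving (shift : (ℤ → A) → (ℤ → A)) (Measure.infinitePi fun _ : ℤ => ν)
      (Measure.infinitePi fun _ : ℤ => ν) := by
  refine ⟨measurable_shift, ?_⟩
  refine Measure.eq_infinitePi (fun _ : ℤ => ν) ?_
  intro s t ht
  rw [Measure.map_apply measurable_shift (MeasurableSet.pi s.countable_toSet fun i _ => ht i)]
  have : (shift : (ℤ → A) → (ℤ → A)) ⁻¹' ((s : Set ℤ).pi t) =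
      ((s.map (Equiv.addRight (1 : ℤ)).toEmbedding : Finset ℤ) : Set ℤ).pi (fun i => t (i - 1)) := by
    ext x
    simp only [Set.mem_preimage, Set.mem_pi, shift, Finset.mem_coe, Finset.mem_map,
      Equiv.coe_toEmbedding, Equiv.coe_addRight]
    constructor
    · rintro h i ⟨a, ha, rfl⟩
      rw [add_sub_cancel_right]
      exact h a ha
    · intro h i hi
      have := h (i + 1) ⟨i, hi, rfl⟩
      rw [add_sub_cancel_right] at this
      exact this
  rw [this, Measure.infinitePi_pi _ (fun i _ => ht _), Finset.prod_map]
  refine Finset.prod_congr rfl fun i _ => ?_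
  change ν (t (i + 1 - 1)) = ν (t i)
  rw [add_sub_cancel_right]

lemma code_shift (b : ℤ → Bool) : code (shift b) = shift (code b) := by
  funext n
  have : oddRun (shift b) n ↔ oddRun b (n + 1) := by
    unfold oddRun shift
    refine exists_congr fun l => and_congr Iff.rfl (and_congr (forall_congr' fun j =>
      imp_congr Iff.rfl ?_) ?_)
    · rw [show n - (j : ℤ) + 1 = n + 1 - j by ring]
    · rw [show n - (l : ℤ) + 1 = n + 1 - l by ring]
  simp [code, shift, this]

lemma noise_code_succ (n : ℤ) (c : Bool) :
    noise {b | code b (n + 1) = c} = noise {b | code b n = c} := by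
  have h := (measurePreserving_shift_iid beta).measure_preimage
    (s := {b : ℤ → Bool | code b n = c})
    ((past_le n _ (measurableSet_code le_rfl c)).nullMeasurableSet)
  have h2 : (shift : (ℤ → Bool) → (ℤ → Bool)) ⁻¹' {b : ℤ → Bool | code b n = c} =
      {b | code b (n + 1) = c} := by
    ext b
    simp [code_shift, shift]
  rw [h2] at h
  exact h

lemma noise_code_eq (n : ℤ) (c : Bool) : noise {b | code b n = c} = noise {b | code b 0 = c} := by
  induction n using Int.induction_on with
  | zero => rfl
  | succ i hi => rw [noise_code_succ, hi]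
  | pred i hi =>
    rw [← hi, ← noise_code_succ (-(i : ℤ) - 1)]
    congr 3
    ext b
    rw [show -(i : ℤ) - 1 + 1 = -i by ring]

/-- stationary distribution -/
def stat (c : Bool) : ℝ≥0∞ := noise {b | code b 0 = c}

lemma stat_add : stat false + stat true = 1 := by
  unfold stat
  have h1 : {b : ℤ → Bool | code b 0 = false} = {b | code b 0 = true}ᶜ := by
    ext b; simp
  rw [h1, add_comm]
  have := measure_add_measure_compl (μ := noise) (past_le 0 _ (measurableSet_code le_rfl true))
  rw [this, measure_univ]

lemma stat_true : stat true = ENNReal.ofReal (lam⁻¹ ^ 2) * stat false := by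
  have h := noise_cylB 0 1 (fun i => if i = 0 then false else true)
  have h2 := noise_cylB 0 1 (fun i => true)
  have h3 : noise {b | code b 1 = true} = noise (cylB 0 1 (fun i => if i = 0 then false else true)) +
      noise (cylB 0 1 (fun _ => true)) := by
    rw [← measure_union]
    · congr 1
      ext b
      simp only [cylB, Set.mem_union, Set.mem_ofPred_eq]
      constructor
      · intro hb
        cases hc : code b 0
        · left
          intro i hi
          interval_cases i
          · simpa using hc
          · simpa using hb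
        · right
          intro i hi
          interval_cases i
          · simpa using hc
          · simpa using hb
      · rintro (h | h)
        · simpa using h 1 le_rfl
        · simpa using h 1 le_rfl
    · rw [Set.disjoint_left]
      intro b h1 h2
      have a1 := h1 0 (by omega)
      have a2 := h2 0 (by omega)
      simp at a1 a2
      rw [a1] at a2
      exact absurd a2 (by decide)
    · exact past_le _ _ (measurableSet_cylB 0 1 _)
  rw [h, h2] at h3
  simp [trans_tt, trans_ft, -inv_pow] at h3
  have h4 := noise_code_eq 1 true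
  unfold stat
  rw [← h4, h3, mul_comm]

/-- the law of the golden-mean chain -/
def chainLaw : Measure (ℤ → Bool) := noise.map code

instance : IsProbabilityMeasure chainLaw := Measure.isProbabilityMeasure_map measurable_code.aemeasurable

lemma chainLaw_cylinder (k : ℤ) (n : ℕ) (w : ℕ → Bool) :
    chainLaw {x | ∀ i : ℕ, i ≤ n → x (k + i) = w i} =
      stat (w 0) * ∏ i ∈ Finset.range n, trans (w i) (w (i + 1)) := by
  have hm : MeasurableSet {x : ℤ → Bool | ∀ i : ℕ, i ≤ n → x (k + i) = w i} := by
    have : {x : ℤ → Bool | ∀ i : ℕ, i ≤ n → x (k + i) = w i} =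
      ⋂ i : ℕ, ⋂ (_ : i ≤ n), {x | x (k + i) = w i} := by
      ext x; simp
    rw [this]
    exact MeasurableSet.iInter fun i => MeasurableSet.iInter fun _ =>
      measurableSet_eq_fun (measurable_pi_apply (k + (i : ℤ))) measurable_const
  rw [chainLaw, Measure.map_apply measurable_code hm]
  have := noise_cylB k n w
  rw [noise_code_eq] at this
  exact this

lemma measurePreserving_shift_chain : MeasurePreserving shift chainLaw chainLaw := by
  refine ⟨measurable_shift, ?_⟩
  have h := (measurePreserving_shift_iid beta).map_eq
  rw [chainLaw, Measure.map_map measurable_shift measurable_code]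
  have : (shift ∘ code : (ℤ → Bool) → (ℤ → Bool)) = code ∘ shift := by
    funext b; simp [code_shift]
  rw [this, ← Measure.map_map measurable_code measurable_shift]
  change ((Measure.infinitePi fun _ : ℤ => beta).map shift).map code = _
  rw [h]
  rfl

end

end Pool.Agent.LibGoldenMean
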