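import Pool.Agent.LibGoldenMean.Bounds

/-!
The golden-mean chain is a stationary, irreducible, aperiodic and positive recurrent Markov chain
with exponential return times.
-/

open MeasureTheory ProbabilityTheory Filter
open scoped ENNReal

namespace Pool.Agent.LibGoldenMean

lemma trans_ft_ne : trans false true ≠ 0 := by
  rw [trans_ft, Ne, ENNReal.ofReal_eq_zero, not_le]
  have := lam_inv_pos; positivity

lemma trans_ff_ne : trans false false ≠ 0 := by
  rw [trans_ff, Ne, ENNReal.ofReal_eq_zero, not_le]
  exact lam_inv_pos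

lemma trans_tf_ne : trans true false ≠ 0 := by
  rw [trans_tf]; exact one_ne_zero

lemma trans_row (a : Bool) : ∑' c, trans a c = 1 := by
  rw [tsum_bool]
  cases a
  · rw [trans_ff, trans_ft, ← ENNReal.ofReal_add lam_inv_pos.le (by positivity), lam_inv_sq,
      lam_inv]
    norm_num
  · rw [trans_tf, trans_tt]; simp

lemma isStationaryMarkovChain_chain : IsStationaryMarkovChain chainLaw stat trans where
  isProbabilityMeasure := inferInstance
  row_sum := trans_row
  cylinder := chainLaw_cylinder

lemma stat_ne_zero (c : Bool) : stat c ≠ 0 := by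
  have h := le_stat c
  intro h0
  rw [h0, nonpos_iff_eq_zero, ENNReal.ofReal_eq_zero] at h
  have := lam_inv_pos
  have : 0 < lam⁻¹ ^ 2 / 2 := by positivity
  linarith

lemma stat_ne_top (c : Bool) : stat c ≠ ∞ := ((stat_le_one c).trans_lt ENNReal.one_lt_top).ne

lemma chain_noReturn (s : Bool) (n : ℕ) :
    chainLaw {x | x 0 = s ∧ ∀ j : ℕ, 1 ≤ j → j ≤ n → x j ≠ s} / stat s ≤
      ENNReal.ofReal (lam * lam⁻¹ ^ n) := by
  have hset : {x : ℤ → Bool | x 0 = s ∧ ∀ j : ℕ, 1 ≤ j → j ≤ n → x j ≠ s} =
      {x | ∀ i : ℕ, i ≤ n → x ((0 : ℤ) + i) = (fun i : ℕ => if i = 0 then s else !s) i} := by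
    ext x
    simp only [Set.mem_ofPred_eq, zero_add]
    constructor
    · rintro ⟨h0, h1⟩ i hi
      rcases Nat.eq_zero_or_pos i with h | h
      · subst h; simpa using h0
      · rw [if_neg (by omega)]
        have := h1 i h hi
        cases hx : x i <;> cases s <;> simp_all
    · intro h
      refine ⟨by simpa using h 0 (Nat.zero_le _), fun j hj hjn => ?_⟩
      have := h j hjn
      rw [if_neg (by omega)] at this
      rw [this]
      cases s <;> simp
  rw [hset, chainLaw_cylinder]
  simp only [if_true]
  rw [mul_comm, mul_div_assoc, ENNReal.div_self (stat_ne_zero s) (stat_ne_top s), mul_one]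
  refine (prod_trans_le n _).trans (ENNReal.ofReal_le_ofReal ?_)
  rw [mul_comm]
  have hli := lam_inv_pos
  gcongr
  rw [div_le_iff₀ (pot_pos _)]
  nlinarith [one_le_pot (if (0 : ℕ) = 0 then s else !s), pot_le (if n = 0 then s else !s), lam_pos]

lemma isErgodicChain_chain : IsErgodicChain chainLaw stat trans where
  irreducible := by
    have h1 : ∀ a b, nStep trans 1 a b = trans a b := by
      intro a b
      simp only [nStep, tsum_bool]
      cases b <;> simp
    intro a b
    cases a <;> cases b
    · exact ⟨0, by simp [nStep]⟩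
    · exact ⟨1, by rw [h1]; exact trans_ft_ne⟩
    · exact ⟨1, by rw [h1]; exact trans_tf_ne⟩
    · exact ⟨0, by simp [nStep]⟩
  aperiodic := by
    have h1 : ∀ a b, nStep trans 1 a b = trans a b := by
      intro a b
      simp only [nStep, tsum_bool]
      cases b <;> simp
    have hstep : ∀ n a b, nStep trans (n + 1) a b =
        trans a false * nStep trans n false b + trans a true * nStep trans n true b := by
      intro n a b
      rw [nStep, tsum_bool]
    intro a d hd
    cases a
    · have := hd 1 le_rfl (by rw [h1]; exact trans_ff_ne)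
      exact Nat.dvd_one.1 this
    · have h2 := hd 2 (by norm_num) (by
        rw [hstep, h1, h1]
        have := mul_ne_zero trans_tf_ne trans_ft_ne
        intro h0
        rw [add_eq_zero] at h0
        exact this h0.1)
      have h3 := hd 3 (by norm_num) (by
        rw [hstep, hstep 1 false true, h1, h1]
        have := mul_ne_zero trans_tf_ne (mul_ne_zero trans_ff_ne trans_ft_ne)
        intro h0
        rw [add_eq_zero] at h0
        rw [mul_add, add_eq_zero] at h0
        exact this h0.1.1)
      have : d ∣ 3 - 2 := Nat.dvd_sub h3 h2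
      exact Nat.dvd_one.1 this
  positive := stat_ne_zero
  positive_recurrent := by
    intro s
    have h1 : ∑' n : ℕ, chainLaw {x | x 0 = s ∧ ∀ j : ℕ, 1 ≤ j → j ≤ n → x j ≠ s} / stat s ≤
        ∑' n : ℕ, ENNReal.ofReal lam * ENNReal.ofReal lam⁻¹ ^ n := by
      refine ENNReal.tsum_le_tsum fun n => (chain_noReturn s n).trans (le_of_eq ?_)
      rw [← ENNReal.ofReal_pow lam_inv_pos.le, ← ENNReal.ofReal_mul lam_pos.le]
    refine ne_top_of_le_ne_top ?_ h1
    rw [ENNReal.tsum_mul_left, ENNReal.tsum_geometric]
    refine ENNReal.mul_ne_top ENNReal.ofReal_ne_top ?_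
    rw [Ne, ENNReal.inv_eq_top]
    have : ENNReal.ofReal lam⁻¹ < 1 := by
      rw [← ENNReal.ofReal_one, ENNReal.ofReal_lt_ofReal_iff (by norm_num), lam_inv]
      linarith [lam_lt_two]
    exact (tsub_pos_of_lt this).ne'

lemma chainLaw_zero (s : Bool) : chainLaw {x | x 0 = s} = stat s := by
  have h := chainLaw_cylinder 0 0 (fun _ => s)
  simpa using h

lemma hasExpReturnTimes_chain : HasExpReturnTimes chainLaw := by
  refine ⟨true, ?_, lam, Real.log lam, lam_pos, Real.log_pos one_lt_lam, fun n => ?_⟩
  · rw [chainLaw_zero]; exact stat_ne_zero _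
  · rw [chainLaw_zero]
    refine (chain_noReturn true n).trans (le_of_eq ?_)
    congr 2
    rw [Real.exp_neg, mul_comm, Real.exp_nat_mul, Real.exp_log lam_pos, inv_pow]

end Pool.Agent.LibGoldenMean
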