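import Pool.Agent.LibGoldenMean.Chain

/-!
Lower bounds for the Kolmogorov-Sinai entropy of an i.i.d. process, and the moment inequality for
the atoms of the marginal.
-/

open MeasureTheory ProbabilityTheory Filter
open scoped ENNReal

namespace Pool.Agent.LibGoldenMean

noncomputable section

lemma sum_negMulLog_prod {κ : Type*} [Fintype κ] (p : κ → ℝ) (hp : ∑ a, p a = 1) (n : ℕ) :
    ∑ w : Fin n → κ, Real.negMulLog (∏ i, p (w i)) = n * ∑ a, Real.negMulLog (p a) := by
  induction n with
  | zero => simp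
  | succ n ih =>
    have h1 : ∑ w : Fin (n + 1) → κ, Real.negMulLog (∏ i, p (w i)) =
        ∑ x : κ × (Fin n → κ), Real.negMulLog (p x.1 * ∏ i, p (x.2 i)) := by
      refine Fintype.sum_equiv (Fin.consEquiv (fun _ => κ)).symm _ _ fun w => ?_
      rw [Fin.prod_univ_succ]
      rfl
    have h2 : ∑ w : Fin n → κ, ∏ i, p (w i) = 1 := by
      rw [← Fintype.prod_sum (f := fun (_ : Fin n) a => p a)]
      simp [hp]
    rw [h1, Fintype.sum_prod_type]
    simp only [Real.negMulLog_mul]
    simp only [Finset.sum_add_distrib, ← Finset.mul_sum, ← Finset.sum_mul, h2, ih, hp, one_mul]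
    push_cast; ring

lemma shift_iterate' {S : Type*} (i : ℕ) (x : ℤ → S) (z : ℤ) : (shift^[i] x) z = x (z + i) := by
  induction i generalizing x with
  | zero => simp
  | succ i ih =>
    rw [Function.iterate_succ_apply, ih]
    simp only [shift]
    congr 1; push_cast; ring

instance {A : Type*} [MeasurableSpace A] (ν : Measure A) [IsProbabilityMeasure ν] :
    IsProbabilityMeasure (iidLaw ν) := by unfold iidLaw; infer_instance

/-- probability of a finite-dimensional box -/
lemma iidLaw_box {A : Type*} [MeasurableSpace A] (ν : Measure A) [IsProbabilityMeasure ν] (n : ℕ)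
    (t : Fin n → Set A) (ht : ∀ i, MeasurableSet (t i)) :
    iidLaw ν {y | ∀ i : Fin n, y (i : ℕ) ∈ t i} = ∏ i, ν (t i) := by
  classical
  let T : ℤ → Set A := fun z => if h : 0 ≤ z ∧ z < n then t ⟨z.toNat, by omega⟩ else Set.univ
  let s : Finset ℤ := Finset.univ.map ⟨fun i : Fin n => ((i : ℕ) : ℤ), fun a b h => by
    simp only at h; exact Fin.ext (by exact_mod_cast h)⟩
  have hT : ∀ i : Fin n, T ((i : ℕ) : ℤ) = t i := by
    intro i
    have h : (0 : ℤ) ≤ ((i : ℕ) : ℤ) ∧ ((i : ℕ) : ℤ) < n := ⟨by omega, by have := i.2; omega⟩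
    simp only [T]
    rw [dif_pos h]
    congr 1
  have hset : {y : ℤ → A | ∀ i : Fin n, y (i : ℕ) ∈ t i} = (s : Set ℤ).pi T := by
    ext y
    simp only [Set.mem_ofPred_eq, Set.mem_pi, Finset.mem_coe, s, Finset.mem_map, Finset.mem_univ,
      true_and, Function.Embedding.coeFn_mk]
    constructor
    · rintro h z ⟨i, rfl⟩
      rw [hT]; exact h i
    · intro h i
      have := h ((i : ℕ) : ℤ) ⟨i, rfl⟩
      rwa [hT] at this
  rw [hset, iidLaw, Measure.infinitePi_pi]
  · rw [Finset.prod_map]
    refine Finset.prod_congr rfl fun i _ => ?_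
    change ν (T ((i : ℕ) : ℤ)) = _
    rw [hT]
  · intro i _
    simp only [T]
    split_ifs
    · exact ht _
    · exact MeasurableSet.univ

lemma sum_real_preimage {X κ : Type*} [MeasurableSpace X] [Fintype κ] [MeasurableSpace κ]
    [MeasurableSingletonClass κ] (μ : Measure X) [IsProbabilityMeasure μ] (f : X → κ)
    (hf : Measurable f) : ∑ a, μ.real (f ⁻¹' {a}) = 1 := by
  classical
  have := measureReal_biUnion_finset (μ := μ) (s := (Finset.univ : Finset κ))
    (f := fun a => f ⁻¹' {a}) (by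
      intro a _ b _ hab
      exact Disjoint.preimage f (Set.disjoint_singleton.2 hab))
    (fun a _ => hf (MeasurableSet.singleton a))
  rw [← this]
  have hu : (⋃ a ∈ (Finset.univ : Finset κ), f ⁻¹' {a}) = Set.univ := by
    ext x; simp
  rw [hu]; simp

lemma shannon_iid {A : Type*} [MeasurableSpace A] (ν : Measure A) [IsProbabilityMeasure ν]
    {κ : Type*} [Fintype κ] [MeasurableSpace κ] [MeasurableSingletonClass κ] (ζ : A → κ)
    (hζ : Measurable ζ) (n : ℕ) :
    shannon (iidLaw ν) (fun y => fun i : Fin n => ζ ((shift^[i] y) 0)) = n * shannon ν ζ := by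
  unfold shannon
  rw [← sum_negMulLog_prod _ (sum_real_preimage ν ζ hζ) n]
  refine Finset.sum_congr rfl fun w _ => ?_
  congr 1
  have : (fun y : ℤ → A => fun i : Fin n => ζ ((shift^[i] y) 0)) ⁻¹' {w} =
      {y | ∀ i : Fin n, y (i : ℕ) ∈ ζ ⁻¹' {w i}} := by
    ext y
    simp only [Set.mem_preimage, Set.mem_singleton_iff, Set.mem_ofPred_eq, shift_iterate', zero_add]
    exact funext_iff
  rw [this, Measure.real, iidLaw_box ν n _ (fun i => hζ (MeasurableSet.singleton _)),
    ENNReal.toReal_prod]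
  rfl

/-- The Shannon entropy of every finite quantisation of the marginal is a lower bound for the
Kolmogorov-Sinai entropy of the i.i.d. process. -/
lemma shannon_le_ksEntropy {A : Type*} [MeasurableSpace A] (ν : Measure A)
    [IsProbabilityMeasure ν] {k : ℕ} (ζ : A → Fin k) (hζ : Measurable ζ) :
    ENNReal.ofReal (shannon ν ζ) ≤ ksEntropy (iidLaw ν) shift := by
  unfold ksEntropy
  refine le_iSup_of_le k (le_iSup_of_le (fun y => ζ (y 0)) (le_iSup_of_le
    (hζ.comp (measurable_pi_apply 0)) ?_))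
  unfold partitionEntropy
  have h : (fun n : ℕ => ENNReal.ofReal (shannon (iidLaw ν)
      (fun x => fun i : Fin n => (fun y : ℤ → A => ζ (y 0)) (shift^[i] x)) / n)) =ᶠ[atTop]
      fun _ => ENNReal.ofReal (shannon ν ζ) := by
    filter_upwards [eventually_ge_atTop 1] with n hn
    have hn0 : (n : ℝ) ≠ 0 := by positivity
    have := shannon_iid ν ζ hζ n
    change ENNReal.ofReal (shannon (iidLaw ν)
      (fun y => fun i : Fin n => ζ ((shift^[i] y) 0)) / n) = _
    rw [this]
    congr 1; field_simp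
  rw [limsup_congr h, limsup_const]

lemma shannon_equiv {X κ κ' : Type*} [MeasurableSpace X] [Fintype κ] [Fintype κ']
    (μ : Measure X) (f : X → κ) (e : κ ≃ κ') : shannon μ (fun x => e (f x)) = shannon μ f := by
  unfold shannon
  refine (Fintype.sum_equiv e _ _ fun a => ?_).symm
  congr 2
  ext x; simp

lemma shannon_le_of_ksEntropy_le {A : Type*} [MeasurableSpace A] (ν : Measure A)
    [IsProbabilityMeasure ν] {h : ℝ} (h0 : 0 ≤ h)
    (hks : ksEntropy (iidLaw ν) shift ≤ ENNReal.ofReal h)
    {κ : Type*} [Fintype κ] [MeasurableSpace κ] [DiscreteMeasurableSpace κ] (ζ : A → κ)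
    (hζ : Measurable ζ) : shannon ν ζ ≤ h := by
  classical
  let e := Fintype.equivFin κ
  have h1 := shannon_le_ksEntropy ν (fun y => e (ζ y)) ((measurable_of_finite e).comp hζ)
  rw [shannon_equiv] at h1
  exact (ENNReal.ofReal_le_ofReal_iff h0).1 (h1.trans hks)

/-- Jensen inequality for a finite partition. -/
lemma exp_le_sum {κ : Type*} [Fintype κ] (p : κ → ℝ) (hp0 : ∀ a, 0 ≤ p a) (hp : ∑ a, p a = 1)
    (θ : ℝ) :
    Real.exp (-(θ * ∑ a, Real.negMulLog (p a))) ≤ ∑ a, p a * p a ^ θ := by
  have h := convexOn_exp.map_sum_le (t := (Finset.univ : Finset κ)) (w := p)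
    (p := fun a => θ * Real.log (p a)) (fun a _ => hp0 a) hp (fun a _ => Set.mem_univ _)
  simp only [smul_eq_mul] at h
  refine le_trans (le_of_eq ?_) (h.trans (le_of_eq ?_))
  · congr 1
    rw [Finset.mul_sum, ← Finset.sum_neg_distrib]
    refine Finset.sum_congr rfl fun a _ => ?_
    rw [Real.negMulLog]; ring
  · refine Finset.sum_congr rfl fun a _ => ?_
    rcases (hp0 a).eq_or_lt with h0 | h0
    · rw [← h0]; simp
    · rw [Real.rpow_def_of_pos h0]
      ring_nf

/-- If the Kolmogorov-Sinai entropy of the i.i.d. process is at most `h`, then the atoms of the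
marginal satisfy `∫ ν{y}^θ dν(y) ≥ exp (- θ h)`. -/
lemma exp_le_integral_atoms {A : Type*} [MeasurableSpace A] [MeasurableSpace.CountablySeparated A]
    (ν : Measure A)
    [IsProbabilityMeasure ν] {h : ℝ} (h0 : 0 ≤ h)
    (hks : ksEntropy (iidLaw ν) shift ≤ ENNReal.ofReal h) (θ : ℝ) (hθ : 0 < θ) :
    Real.exp (-(θ * h)) ≤ ∫ y, ν.real {y} ^ θ ∂ν := by
  obtain ⟨f, hf, hinj⟩ := MeasurableSpace.measurable_injection_nat_bool_of_countablySeparated A
  let ζ : (m : ℕ) → A → (Fin m → Bool) := fun m y i => f y i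
  have hζ : ∀ m, Measurable (ζ m) := fun m =>
    measurable_pi_lambda _ fun i => (measurable_pi_apply _).comp hf
  let c : ℕ → A → ℝ := fun m y => ν.real (ζ m ⁻¹' {ζ m y})
  have hc0 : ∀ m y, 0 ≤ c m y := fun m y => measureReal_nonneg
  have hc1 : ∀ m y, c m y ≤ 1 := fun m y => measureReal_le_one
  -- lower bound for each m
  have hm : ∀ m, Real.exp (-(θ * h)) ≤ ∫ y, c m y ^ θ ∂ν := by
    intro m
    have h1 := exp_le_sum (fun a : Fin m → Bool => ν.real (ζ m ⁻¹' {a}))
      (fun a => measureReal_nonneg) (sum_real_preimage ν (ζ m) (hζ m)) θ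
    have h2 : shannon ν (ζ m) ≤ h := shannon_le_of_ksEntropy_le ν h0 hks (ζ m) (hζ m)
    have h3 : ∫ y, c m y ^ θ ∂ν =
        ∑ a, ν.real (ζ m ⁻¹' {a}) * ν.real (ζ m ⁻¹' {a}) ^ θ := by
      have hprob : IsProbabilityMeasure (ν.map (ζ m)) :=
        Measure.isProbabilityMeasure_map (hζ m).aemeasurable
      have h4 := integral_map (μ := ν) (hζ m).aemeasurable
        (f := fun a : Fin m → Bool => ν.real (ζ m ⁻¹' {a}) ^ θ)
        (measurable_of_finite _).aestronglyMeasurable
      change ∫ y, ν.real (ζ m ⁻¹' {ζ m y}) ^ θ ∂ν = _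
      rw [← h4, integral_fintype (Integrable.of_finite)]
      refine Finset.sum_congr rfl fun a _ => ?_
      rw [Measure.real, Measure.map_apply (hζ m) (MeasurableSet.singleton a), smul_eq_mul]
      rfl
    rw [h3]
    refine le_trans ?_ h1
    apply Real.exp_le_exp.2
    have : ∑ a, Real.negMulLog (ν.real (ζ m ⁻¹' {a})) = shannon ν (ζ m) := rfl
    rw [this]
    nlinarith
  -- convergence
  have hlim : ∀ y, Tendsto (fun m => c m y ^ θ) atTop (nhds (ν.real {y} ^ θ)) := by
    intro y
    have h1 : Tendsto (fun m => ν (ζ m ⁻¹' {ζ m y})) atTop (nhds (ν (⋂ m, ζ m ⁻¹' {ζ m y}))) := by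
      refine tendsto_measure_iInter_atTop
        (fun m => ((hζ m) (MeasurableSet.singleton _)).nullMeasurableSet) ?_
        ⟨0, measure_ne_top _ _⟩
      intro m m' hmm x hx
      simp only [Set.mem_preimage, Set.mem_singleton_iff, ζ] at hx ⊢
      funext i
      exact congrFun hx ⟨i, by omega⟩
    have h2 : (⋂ m, ζ m ⁻¹' {ζ m y}) = {y} := by
      ext x
      simp only [Set.mem_iInter, Set.mem_preimage, Set.mem_singleton_iff, ζ]
      constructor
      · intro hx
        apply hinj
        funext i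
        exact congrFun (hx (i + 1)) ⟨i, by omega⟩
      · rintro rfl m; rfl
    rw [h2] at h1
    have h3 : Tendsto (fun m => c m y) atTop (nhds (ν.real {y})) :=
      (ENNReal.tendsto_toReal (measure_ne_top _ _)).comp h1
    exact h3.rpow_const (Or.inr hθ.le)
  have hint : Tendsto (fun m => ∫ y, c m y ^ θ ∂ν) atTop (nhds (∫ y, ν.real {y} ^ θ ∂ν)) := by
    refine tendsto_integral_of_dominated_convergence (fun _ => (1 : ℝ)) ?_ (integrable_const _) ?_
      (ae_of_all _ hlim)
    · intro m
      exact ((measurable_of_finite (fun a : Fin m → Bool => ν.real (ζ m ⁻¹' {a}) ^ θ)).comp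
        (hζ m)).aestronglyMeasurable
    · intro m
      filter_upwards with y
      rw [Real.norm_eq_abs, abs_of_nonneg (Real.rpow_nonneg (hc0 m y) _)]
      exact Real.rpow_le_one (hc0 m y) (hc1 m y) hθ.le
  exact ge_of_tendsto' hint hm

end

end Pool.Agent.LibGoldenMean
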