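import Pool.Agent.LibGoldenMean.Bounds
import Pool.Agent.LibGoldenMean.KSLower

/-!
The moment bound for the product of atoms along a finitary factor map onto the golden-mean chain.
-/

open MeasureTheory ProbabilityTheory Filter
open scoped ENNReal

namespace Pool.Agent.LibGoldenMean

noncomputable section

variable {A : Type*} [MeasurableSpace A]

omit [MeasurableSpace A] in
lemma DeterminedBy.mono {S : Type*} {φ : (ℤ → A) → (ℤ → S)} {D : Set (ℤ → A)} {r r' : ℕ}
    {y : ℤ → A} (h : r ≤ r') (hd : DeterminedBy φ D r y) : DeterminedBy φ D r' y := by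
  intro y' hy' hyy
  exact hd y' hy' fun i hi => hyy i (hi.trans (by exact_mod_cast h))

omit [MeasurableSpace A] in
lemma determinedBy_of_not_lt {S : Type*} {φ : (ℤ → A) → (ℤ → S)} {D : Set (ℤ → A)} {r : ℕ}
    {y : ℤ → A} (h : ¬ (r : ℕ∞) < codingWindow φ D y) : DeterminedBy φ D r y := by
  by_contra hcon
  apply h
  unfold codingWindow
  have h1 : ((r + 1 : ℕ) : ℕ∞) ≤ ⨅ (r' : ℕ) (_ : DeterminedBy φ D r' y), (r' : ℕ∞) := by
    refine le_iInf fun r' => le_iInf fun hr' => ?_
    have : ¬ r' ≤ r := fun hle => hcon (hr'.mono hle)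
    exact_mod_cast (by omega : r + 1 ≤ r')
  refine lt_of_lt_of_le ?_ h1
  exact_mod_cast Nat.lt_succ_self r

variable (ν : Measure A) [IsProbabilityMeasure ν]

lemma measurePreserving_shift_iidLaw : MeasurePreserving (shift : (ℤ → A) → (ℤ → A))
    (iidLaw ν) (iidLaw ν) := measurePreserving_shift_iid ν

/-- iterates of the shift preserve the measure of arbitrary sets -/
lemma iidLaw_preimage_iterate (i : ℕ) (s : Set (ℤ → A)) :
    iidLaw ν (shift^[i] ⁻¹' s) = iidLaw ν s := by
  induction i generalizing s with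
  | zero => simp
  | succ i ih =>
    rw [Function.iterate_succ, Set.preimage_comp]
    have h : MeasurePreserving (shiftEquiv A) (iidLaw ν) (iidLaw ν) :=
      measurePreserving_shift_iidLaw ν
    have h2 := h.measure_preimage_equiv (shift^[i] ⁻¹' s)
    change iidLaw ν (shift ⁻¹' (shift^[i] ⁻¹' s)) = _ at h2
    rw [h2, ih]

lemma iidLaw_cyl [MeasurableSingletonClass A] (y : ℤ → A) (n : ℕ) :
    iidLaw ν {y' | ∀ i : Fin n, y' (i : ℕ) = y (i : ℕ)} = ∏ i : Fin n, ν {y (i : ℕ)} := by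
  exact iidLaw_box ν n (fun i => {y (i : ℕ)}) (fun i => MeasurableSet.singleton _)

variable (φ : (ℤ → A) → (ℤ → Bool)) (D : Set (ℤ → A))

/-- configurations for which some window around a position in `[m, n-1-m]` leaves `[0, n-1]` -/
def bad (n m : ℕ) : Set (ℤ → A) :=
  ⋃ i ∈ (Finset.range n).filter (fun i => m ≤ i ∧ i + m < n),
    shift^[i] ⁻¹' {y | ((min i (n - 1 - i) : ℕ) : ℕ∞) < codingWindow φ D y}

omit [MeasurableSpace A] in
lemma bad_empty (n : ℕ) : bad φ D n n = ∅ := by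
  unfold bad
  have : (Finset.range n).filter (fun i => n ≤ i ∧ i + n < n) = ∅ := by
    ext i; simp
  rw [this]; simp

lemma measure_bad_le (W : ℕ → ℝ≥0∞)
    (hW : ∀ r : ℕ, iidLaw ν {y | (r : ℕ∞) < codingWindow φ D y} ≤ W r) (n m : ℕ) :
    iidLaw ν (bad φ D n m) ≤ 2 * ∑' j, W (m + j) := by
  unfold bad
  refine (measure_biUnion_finset_le _ _).trans ?_
  have h1 : ∀ i ∈ (Finset.range n).filter (fun i => m ≤ i ∧ i + m < n),
      iidLaw ν (shift^[i] ⁻¹' {y | ((min i (n - 1 - i) : ℕ) : ℕ∞) < codingWindow φ D y}) ≤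
        W i + W (n - 1 - i) := by
    intro i _
    rw [iidLaw_preimage_iterate]
    rcases min_choice i (n - 1 - i) with h | h
    · rw [h]; exact (hW _).trans le_self_add
    · rw [h]; exact (hW _).trans le_add_self
  refine (Finset.sum_le_sum h1).trans ?_
  rw [Finset.sum_add_distrib, two_mul]
  have key : ∀ s : Finset ℕ, (∀ i ∈ s, m ≤ i) → ∑ i ∈ s, W i ≤ ∑' j, W (m + j) := by
    intro s hs
    have : ∑ i ∈ s, W i = ∑ j ∈ s.image (fun i => i - m), W (m + j) := by
      rw [Finset.sum_image]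
      · refine Finset.sum_congr rfl fun i hi => ?_
        have := hs i hi
        congr 1; omega
      · intro a ha b hb hab
        have h1 := hs a ha
        have h2 := hs b hb
        simp only at hab
        omega
    rw [this]
    exact ENNReal.sum_le_tsum _
  refine add_le_add (key _ fun i hi => ((Finset.mem_filter.1 hi).2).1) ?_
  have : ∑ x ∈ Finset.range n with m ≤ x ∧ x + m < n, W (n - 1 - x) =
      ∑ x ∈ Finset.range n with m ≤ x ∧ x + m < n, W x := by
    refine Finset.sum_nbij' (fun i => n - 1 - i) (fun i => n - 1 - i) ?_ ?_ ?_ ?_ ?_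
    · intro i hi
      simp only [Finset.mem_filter, Finset.mem_range] at hi ⊢
      omega
    · intro i hi
      simp only [Finset.mem_filter, Finset.mem_range] at hi ⊢
      omega
    · intro i hi
      simp only [Finset.mem_filter, Finset.mem_range] at hi
      omega
    · intro i hi
      simp only [Finset.mem_filter, Finset.mem_range] at hi
      omega
    · intro i _; rfl
  rw [this]
  exact key _ fun i hi => ((Finset.mem_filter.1 hi).2).1

/-- good configurations: all forward shifts lie in `D` and the coding commutes with all iterates -/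
lemma ae_good (heq : ∀ᵐ y ∂(iidLaw ν), φ (shift y) = shift (φ y))
    (hD : ∀ᵐ y ∂(iidLaw ν), y ∈ D) :
    ∀ᵐ y ∂(iidLaw ν), ∀ i : ℕ, shift^[i] y ∈ D ∧ φ (shift^[i] y) = shift^[i] (φ y) := by
  have hmp := measurePreserving_shift_iidLaw ν
  have h1 : ∀ᵐ y ∂(iidLaw ν), ∀ i : ℕ, shift^[i] y ∈ D :=
    ae_all_iff.2 fun i => (hmp.iterate i).quasiMeasurePreserving.ae hD
  have h2 : ∀ᵐ y ∂(iidLaw ν), ∀ i : ℕ, φ (shift (shift^[i] y)) = shift (φ (shift^[i] y)) :=
    ae_all_iff.2 fun i => (hmp.iterate i).quasiMeasurePreserving.ae heq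
  filter_upwards [h1, h2] with y hy1 hy2 i
  refine ⟨hy1 i, ?_⟩
  induction i with
  | zero => rfl
  | succ i ih =>
    rw [Function.iterate_succ_apply', hy2 i, ih, Function.iterate_succ_apply']

lemma prod_atoms_le [MeasurableSingletonClass A] (hφ : Measurable φ)
    (hmap : (iidLaw ν).map φ = chainLaw)
    (heq : ∀ᵐ y ∂(iidLaw ν), φ (shift y) = shift (φ y))
    (hD : ∀ᵐ y ∂(iidLaw ν), y ∈ D) :
    ∀ᵐ y ∂(iidLaw ν), ∀ n m : ℕ, y ∉ bad φ D n m →
      ∏ i : Fin n, ν {y (i : ℕ)} ≤ ENNReal.ofReal (lam ^ 2 * (lam ^ 2) ^ m * lam⁻¹ ^ n) := by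
  have hgood := ae_good ν φ D heq hD
  filter_upwards [hgood] with y hy n m hbad
  have hl := one_lt_lam
  have hlp := lam_pos
  have hli := lam_inv_pos
  rcases Nat.lt_or_ge (2 * m) n with hnm | hnm
  · -- main case
    have hincl : ∀ᵐ y' ∂(iidLaw ν), y' ∈ {y' : ℤ → A | ∀ i : Fin n, y' (i : ℕ) = y (i : ℕ)} →
        y' ∈ φ ⁻¹' {x | ∀ i : ℕ, i ≤ n - 1 - 2 * m → x ((m : ℤ) + i) = (fun i : ℕ => φ y ((m : ℤ) + i)) i} := by
      filter_upwards [hgood] with y' hy' hyy i hi
      set j := m + i with hj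
      have hjn : j ∈ (Finset.range n).filter (fun i => m ≤ i ∧ i + m < n) := by
        simp only [Finset.mem_filter, Finset.mem_range]; omega
      have hwin : ¬ ((min j (n - 1 - j) : ℕ) : ℕ∞) < codingWindow φ D (shift^[j] y) := by
        intro hcon
        apply hbad
        unfold bad
        simp only [Set.mem_iUnion]
        exact ⟨j, hjn, hcon⟩
      have hdet := determinedBy_of_not_lt hwin
      have h1 := hdet (shift^[j] y') (hy' j).1 (by
        intro z hz
        rw [shift_iterate', shift_iterate']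
        have hz' := abs_le.1 hz
        have hzn : 0 ≤ z + j ∧ z + j < n := by
          constructor
          · have : ((min j (n - 1 - j) : ℕ) : ℤ) ≤ j := by exact_mod_cast min_le_left _ _
            omega
          · have : ((min j (n - 1 - j) : ℕ) : ℤ) ≤ ((n - 1 - j : ℕ) : ℤ) := by
              exact_mod_cast min_le_right _ _
            omega
        have := hyy ⟨(z + j).toNat, by omega⟩
        simp only at this
        rwa [Int.toNat_of_nonneg hzn.1] at this)
      rw [(hy' j).2, (hy j).2, shift_iterate', shift_iterate'] at h1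
      have hcast : (0 : ℤ) + (j : ℤ) = (m : ℤ) + i := by rw [hj]; push_cast; ring
      rw [hcast] at h1
      exact h1
    have hle : iidLaw ν {y' : ℤ → A | ∀ i : Fin n, y' (i : ℕ) = y (i : ℕ)} ≤
        chainLaw {x | ∀ i : ℕ, i ≤ n - 1 - 2 * m → x ((m : ℤ) + i) = (fun i : ℕ => φ y ((m : ℤ) + i)) i} := by
      rw [← hmap, Measure.map_apply hφ]
      · exact measure_mono_ae hincl
      · have : {x : ℤ → Bool | ∀ i : ℕ, i ≤ n - 1 - 2 * m → x ((m : ℤ) + i) = (fun i : ℕ => φ y ((m : ℤ) + i)) i} =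
          ⋂ i : ℕ, ⋂ (_ : i ≤ n - 1 - 2 * m), {x | x ((m : ℤ) + i) = φ y ((m : ℤ) + i)} := by
          ext x; simp
        rw [this]
        exact MeasurableSet.iInter fun i => MeasurableSet.iInter fun _ =>
          measurableSet_eq_fun (measurable_pi_apply _) measurable_const
    rw [iidLaw_cyl] at hle
    refine hle.trans ((chainLaw_cyl_le _ _ _).trans (ENNReal.ofReal_le_ofReal ?_))
    have e1 : lam⁻¹ ^ n = lam⁻¹ ^ (n - 1 - 2 * m) * lam⁻¹ * (lam⁻¹ ^ 2) ^ m := by
      rw [← pow_mul, ← pow_succ, ← pow_add]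
      congr 1; omega
    have e2 : lam ^ 2 * (lam ^ 2) ^ m * lam⁻¹ ^ n = lam * lam⁻¹ ^ (n - 1 - 2 * m) := by
      rw [e1]
      have h3 : (lam ^ 2) ^ m * (lam⁻¹ ^ 2) ^ m = 1 := by
        rw [← mul_pow, ← mul_pow, mul_inv_cancel₀ hlp.ne']; simp
      have h4 : lam ^ 2 * lam⁻¹ = lam := by
        rw [sq, mul_assoc, mul_inv_cancel₀ hlp.ne', mul_one]
      calc lam ^ 2 * (lam ^ 2) ^ m * (lam⁻¹ ^ (n - 1 - 2 * m) * lam⁻¹ * (lam⁻¹ ^ 2) ^ m)
          = (lam ^ 2 * lam⁻¹) * ((lam ^ 2) ^ m * (lam⁻¹ ^ 2) ^ m) * lam⁻¹ ^ (n - 1 - 2 * m) := by ring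
        _ = _ := by rw [h3, h4, mul_one]
    rw [e2]
  · -- trivial case
    have h1 : ∏ i : Fin n, ν {y (i : ℕ)} ≤ 1 := Finset.prod_le_one' fun i _ => prob_le_one
    refine h1.trans ?_
    rw [← ENNReal.ofReal_one]
    apply ENNReal.ofReal_le_ofReal
    have h2 : lam ^ n * lam⁻¹ ^ n = 1 := by
      rw [← mul_pow, mul_inv_cancel₀ hlp.ne', one_pow]
    have h3 : lam ^ n ≤ (lam ^ 2) ^ m := by
      rw [← pow_mul]; exact pow_le_pow_right₀ hl.le hnm
    have h4 : (1 : ℝ) ≤ lam ^ 2 := one_le_pow₀ hl.le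
    calc (1 : ℝ) = lam ^ n * lam⁻¹ ^ n := h2.symm
      _ ≤ (lam ^ 2) ^ m * lam⁻¹ ^ n := by gcongr
      _ ≤ lam ^ 2 * (lam ^ 2) ^ m * lam⁻¹ ^ n := by
          have : 0 ≤ (lam ^ 2) ^ m * lam⁻¹ ^ n := by positivity
          nlinarith

end

end Pool.Agent.LibGoldenMean
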