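import Mathlib

/-!
Definitions for the question whether every ergodic Markov chain with exponential return times is
a finitary factor, with exponentially tailed coding window, of an i.i.d. process of the same
entropy.
-/

open MeasureTheory Filter
open scoped ENNReal

namespace Pool.Agent.LibGoldenMean

/-- The left shift on two-sided sequences. -/
def shift {S : Type*} (x : ℤ → S) : ℤ → S := fun n => x (n + 1)

/-! ### Kolmogorov-Sinai entropy -/

/-- Shannon entropy, in nats, of the partition of `X` into the level sets of `f`, where `f` takes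
values in a finite type. -/
noncomputable def shannon {X κ : Type*} [MeasurableSpace X] [Fintype κ] (μ : Measure X)
    (f : X → κ) : ℝ :=
  ∑ a, Real.negMulLog (μ.real (f ⁻¹' {a}))

/-- Entropy of the transformation `T` relative to the partition into the level sets of `f`: the
(upper) limit of `1/n` times the Shannon entropy of the joint partition by
`f, f ∘ T, ..., f ∘ T^(n-1)`. -/
noncomputable def partitionEntropy {X κ : Type*} [MeasurableSpace X] [Fintype κ] (μ : Measure X)
    (T : X → X) (f : X → κ) : ℝ≥0∞ :=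
  limsup (fun n : ℕ =>
    ENNReal.ofReal (shannon μ (fun x => fun i : Fin n => f (T^[i] x)) / n)) atTop

/-- Kolmogorov-Sinai entropy of the transformation `T` and the measure `μ`: supremum of the
entropies relative to finite measurable partitions. -/
noncomputable def ksEntropy {X : Type*} [MeasurableSpace X] (μ : Measure X) (T : X → X) : ℝ≥0∞ :=
  ⨆ (k : ℕ) (f : X → Fin k) (_ : Measurable f), partitionEntropy μ T f

/-! ### Stationary Markov chains on a countable state space -/

/-- `μ` is the law on `ℤ → S` of a stationary Markov chain with one-point law `π` and transition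
matrix `P`. -/
structure IsStationaryMarkovChain {S : Type*} [Countable S] [MeasurableSpace S]
    (μ : Measure (ℤ → S)) (π : S → ℝ≥0∞) (P : S → S → ℝ≥0∞) : Prop where
  isProbabilityMeasure : IsProbabilityMeasure μ
  row_sum : ∀ a, ∑' b, P a b = 1
  cylinder : ∀ (k : ℤ) (n : ℕ) (w : ℕ → S),
    μ {x | ∀ i : ℕ, i ≤ n → x (k + i) = w i} =
      π (w 0) * ∏ i ∈ Finset.range n, P (w i) (w (i + 1))

open Classical in
/-- `n`-step transition probabilities. -/
noncomputable def nStep {S : Type*} (P : S → S → ℝ≥0∞) : ℕ → S → S → ℝ≥0∞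
  | 0, a, b => if a = b then 1 else 0
  | n + 1, a, b => ∑' c, P a c * nStep P n c b

/-- The chain with law `μ`, one-point law `π` and transition matrix `P` is irreducible, aperiodic
and positive recurrent (the expected return time to `s` is
`∑ n, P (no return to s at times 1, ..., n | start at s)`). -/
structure IsErgodicChain {S : Type*} [MeasurableSpace S]
    (μ : Measure (ℤ → S)) (π : S → ℝ≥0∞) (P : S → S → ℝ≥0∞) : Prop where
  irreducible : ∀ a b, ∃ n, nStep P n a b ≠ 0
  aperiodic : ∀ (a : S) (d : ℕ), (∀ n, 1 ≤ n → nStep P n a a ≠ 0 → d ∣ n) → d = 1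
  positive : ∀ s, π s ≠ 0
  positive_recurrent : ∀ s,
    ∑' n : ℕ, μ {x | x 0 = s ∧ ∀ j : ℕ, 1 ≤ j → j ≤ n → x j ≠ s} / π s ≠ ∞

/-- Exponential return times: for some state `s`, the return time
`τ = inf {n ≥ 1 : x n = s}` satisfies `P (τ > n | x 0 = s) ≤ C exp (- c n)` for all `n`. -/
def HasExpReturnTimes {S : Type*} [MeasurableSpace S] (μ : Measure (ℤ → S)) : Prop :=
  ∃ s : S, μ {x | x 0 = s} ≠ 0 ∧ ∃ C c : ℝ, 0 < C ∧ 0 < c ∧ ∀ n : ℕ,
    μ {x | x 0 = s ∧ ∀ j : ℕ, 1 ≤ j → j ≤ n → x j ≠ s} / μ {x | x 0 = s} ≤
      ENNReal.ofReal (C * Real.exp (-(c * n)))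

/-! ### Finitary factors of i.i.d. processes -/

/-- Law of the i.i.d. process, indexed by `ℤ`, with marginal law `ν`. -/
noncomputable def iidLaw {A : Type*} [MeasurableSpace A] (ν : Measure A)
    [IsProbabilityMeasure ν] : Measure (ℤ → A) :=
  Measure.infinitePi (fun _ : ℤ => ν)

/-- Within the set `D` of configurations, `φ y 0` is determined by `y (-r), ..., y r`. -/
def DeterminedBy {A S : Type*} (φ : (ℤ → A) → (ℤ → S)) (D : Set (ℤ → A)) (r : ℕ)
    (y : ℤ → A) : Prop :=
  ∀ y' ∈ D, (∀ i : ℤ, |i| ≤ r → y' i = y i) → φ y' 0 = φ y 0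

/-- The coding window (coding radius) of `φ` at `y`, relative to the set `D`: the least `r` such
that `φ y 0` is determined by `y (-r), ..., y r` (and `∞` if there is none). -/
noncomputable def codingWindow {A S : Type*} (φ : (ℤ → A) → (ℤ → S)) (D : Set (ℤ → A))
    (y : ℤ → A) : ℕ∞ :=
  ⨅ (r : ℕ) (_ : DeterminedBy φ D r y), (r : ℕ∞)

/-- `φ` is a factor map from the i.i.d. process with marginal `ν` onto the process with law `μ`,
which is finitary with a coding window having exponential tails. The coding window is computed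
inside some set `D` of full measure, so that everything is allowed to fail on a null set. -/
structure IsExpFinitaryFactor {A S : Type*} [MeasurableSpace A] [MeasurableSpace S]
    (ν : Measure A) [IsProbabilityMeasure ν] (μ : Measure (ℤ → S))
    (φ : (ℤ → A) → (ℤ → S)) : Prop where
  measurable : Measurable φ
  equivariant : ∀ᵐ y ∂(iidLaw ν), φ (shift y) = shift (φ y)
  map_eq : (iidLaw ν).map φ = μ
  window : ∃ D : Set (ℤ → A), (∀ᵐ y ∂(iidLaw ν), y ∈ D) ∧
    ∃ C c : ℝ, 0 < C ∧ 0 < c ∧ ∀ r : ℕ,
      iidLaw ν {y | (r : ℕ∞) < codingWindow φ D y} ≤ ENNReal.ofReal (C * Real.exp (-(c * r)))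

end Pool.Agent.LibGoldenMean
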