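import Pool.Agent.LibGoldenMean.Bounds

/-!
The Kolmogorov-Sinai entropy of the golden-mean chain is at most `log lam`.
-/

open MeasureTheory ProbabilityTheory Filter
open scoped ENNReal

namespace Pool.Agent.LibGoldenMean

noncomputable section

/-- Gibbs inequality in integrated form. -/
lemma shannon_le_integral {X κ : Type*} [MeasurableSpace X] [Fintype κ] [MeasurableSpace κ]
    [MeasurableSingletonClass κ] (μ : Measure X) [IsProbabilityMeasure μ] (f : X → κ)
    (hf : Measurable f) (r : κ → ℝ) (hr : ∀ a, 0 ≤ r a) (hr1 : ∑ a, r a ≤ 1) (b : X → ℝ)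
    (hb : Integrable b μ) (h : ∀ᵐ x ∂μ, 0 < r (f x) ∧ -Real.log (r (f x)) ≤ b x) :
    shannon μ f ≤ ∫ x, b x ∂μ := by
  classical
  have hp : ∀ a, MeasurableSet (f ⁻¹' {a}) := fun a => hf (MeasurableSet.singleton a)
  have hsum : ∑ a, μ.real (f ⁻¹' {a}) = 1 := by
    have := measureReal_biUnion_finset (μ := μ) (s := (Finset.univ : Finset κ))
      (f := fun a => f ⁻¹' {a}) (by
        intro a _ b _ hab
        exact Disjoint.preimage f (Set.disjoint_singleton.2 hab)) (fun a _ => hp a)
    rw [← this]
    have hu : (⋃ a ∈ (Finset.univ : Finset κ), f ⁻¹' {a}) = Set.univ := by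
      ext x; simp
    rw [hu]; simp
  have hpos : ∀ a, μ.real (f ⁻¹' {a}) ≠ 0 → 0 < r a := by
    intro a ha
    by_contra hcon
    apply ha
    have : μ (f ⁻¹' {a}) = 0 := by
      rw [measure_eq_zero_iff_ae_notMem]
      filter_upwards [h] with x hx hxa
      have : f x = a := hxa
      rw [this] at hx
      exact hcon hx.1
    simp [Measure.real, this]
  have h1 : ∀ a, Real.negMulLog (μ.real (f ⁻¹' {a})) ≤
      μ.real (f ⁻¹' {a}) * (-Real.log (r a)) + (r a - μ.real (f ⁻¹' {a})) := by
    intro a
    set p := μ.real (f ⁻¹' {a}) with hpdef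
    have hp0 : 0 ≤ p := measureReal_nonneg
    rcases hp0.eq_or_lt with h0 | h0
    · rw [← h0]; simp [hr a]
    · have hra : 0 < r a := hpos a h0.ne'
      have := Real.log_le_sub_one_of_pos (div_pos hra h0)
      rw [Real.log_div hra.ne' h0.ne'] at this
      have h2 : p * (Real.log (r a) - Real.log p) ≤ p * (r a / p - 1) :=
        mul_le_mul_of_nonneg_left this h0.le
      have h3 : p * (r a / p - 1) = r a - p := by field_simp
      rw [Real.negMulLog]
      linarith
  have h2 : ∫ x, b x ∂μ ≥ ∑ a, μ.real (f ⁻¹' {a}) * (-Real.log (r a)) := by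
    have hint : Integrable (fun x => -Real.log (r (f x))) μ := by
      have : Measurable (fun x => -Real.log (r (f x))) :=
        (measurable_of_finite (fun a => -Real.log (r a))).comp hf
      refine Integrable.of_bound (C := ∑ a, |Real.log (r a)|) this.aestronglyMeasurable ?_
      filter_upwards with x
      rw [norm_neg, Real.norm_eq_abs]
      exact Finset.single_le_sum (f := fun a => |Real.log (r a)|) (fun a _ => abs_nonneg _)
        (Finset.mem_univ (f x))
    have h4 : ∫ x, -Real.log (r (f x)) ∂μ ≤ ∫ x, b x ∂μ := by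
      refine integral_mono_ae hint hb ?_
      filter_upwards [h] with x hx using hx.2
    have h5 : ∫ x, -Real.log (r (f x)) ∂μ = ∑ a, μ.real (f ⁻¹' {a}) * (-Real.log (r a)) := by
      have hprob : IsProbabilityMeasure (μ.map f) := Measure.isProbabilityMeasure_map hf.aemeasurable
      rw [← integral_map (f := fun a => -Real.log (r a)) hf.aemeasurable
        (measurable_of_finite _).aestronglyMeasurable]
      rw [integral_fintype (Integrable.of_finite)]
      refine Finset.sum_congr rfl fun a _ => ?_
      rw [Measure.real, Measure.map_apply hf (MeasurableSet.singleton a), smul_eq_mul]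
      rfl
    rw [← h5]; exact h4
  calc shannon μ f ≤ ∑ a, (μ.real (f ⁻¹' {a}) * (-Real.log (r a)) + (r a - μ.real (f ⁻¹' {a}))) :=
        Finset.sum_le_sum fun a _ => h1 a
    _ = (∑ a, μ.real (f ⁻¹' {a}) * (-Real.log (r a))) + (∑ a, r a - 1) := by
        rw [Finset.sum_add_distrib, Finset.sum_sub_distrib, hsum]
    _ ≤ ∫ x, b x ∂μ := by linarith

lemma measurable_of_dependsOn {β : Type*} [MeasurableSpace β] {g : (ℤ → Bool) → β} {N : ℕ}
    (hg : DependsOn g (Set.Icc (-(N : ℤ)) N)) : Measurable g := by
  have : Nonempty β := ⟨g fun _ => false⟩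
  obtain ⟨g', hg'⟩ := dependsOn_iff_exists_comp.1 hg
  rw [hg']
  have hfin : Finite (Set.Icc (-(N : ℤ)) N) := (Set.finite_Icc _ _).to_subtype
  refine Measurable.comp (measurable_of_finite g') ?_
  exact measurable_pi_lambda _ fun i => measurable_pi_apply _

lemma exists_local_approx (μ : Measure (ℤ → Bool)) [IsProbabilityMeasure μ] {k : ℕ}
    (f : (ℤ → Bool) → Fin k) (hf : Measurable f) (δ : ℝ) (hδ : 0 < δ) :
    ∃ (N : ℕ) (g : (ℤ → Bool) → Fin k), DependsOn g (Set.Icc (-(N : ℤ)) N) ∧
      μ.real {x | f x ≠ g x} ≤ δ := by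
  classical
  let a0 : Fin k := f fun _ => false
  have hk : 0 < k := a0.pos
  have hk' : (0 : ℝ) < k := by exact_mod_cast hk
  have hcyl : ∀ a : Fin k, ∃ t ∈ measurableCylinders (fun _ : ℤ => Bool),
      μ (symmDiff t (f ⁻¹' {a})) < ENNReal.ofReal (δ / k) := by
    intro a
    refine exists_measure_symmDiff_lt_of_generateFrom_isSetRing isSetRing_measurableCylinders
      ⟨{Set.univ}, Set.countable_singleton _, ?_, by simp⟩
      generateFrom_measurableCylinders.symm (hf (MeasurableSet.singleton a)) (by positivity)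
    intro s hs
    rw [Set.mem_singleton_iff] at hs
    rw [hs]; exact univ_mem_measurableCylinders _
  choose t ht1 ht2 using hcyl
  have hS : ∀ a : Fin k, ∃ (I : Finset ℤ) (S : Set (∀ i : I, Bool)), t a = cylinder I S := by
    intro a
    obtain ⟨I, S, _, h⟩ := (mem_measurableCylinders _).1 (ht1 a)
    exact ⟨I, S, h⟩
  choose I S hIS using hS
  -- choose N
  obtain ⟨N, hN⟩ : ∃ N : ℕ, ∀ a : Fin k, ∀ i ∈ I a, i ∈ Set.Icc (-(N : ℤ)) N := by
    refine ⟨∑ a, ∑ i ∈ I a, i.natAbs, fun a i hi => ?_⟩
    have h1 : i.natAbs ≤ ∑ a, ∑ i ∈ I a, i.natAbs := by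
      refine (Finset.single_le_sum (f := fun i : ℤ => i.natAbs) (fun _ _ => Nat.zero_le _) hi).trans ?_
      exact Finset.single_le_sum (f := fun a => ∑ i ∈ I a, i.natAbs)
        (fun _ _ => Nat.zero_le _) (Finset.mem_univ a)
    constructor <;> omega
  have hmem : ∀ a (x y : ℤ → Bool), (∀ i ∈ Set.Icc (-(N : ℤ)) N, x i = y i) →
      (x ∈ t a ↔ y ∈ t a) := by
    intro a x y hxy
    rw [hIS a, mem_cylinder, mem_cylinder]
    have : (I a).restrict x = (I a).restrict y := by
      funext i; exact hxy i (hN a i i.2)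
    rw [this]
  let g : (ℤ → Bool) → Fin k := fun x => if h : ∃ a, x ∈ t a then h.choose else a0
  refine ⟨N, g, ?_, ?_⟩
  · intro x y hxy
    have : (fun a => x ∈ t a) = fun a => y ∈ t a := by
      funext a; exact propext (hmem a x y hxy)
    simp only [g]
    have h1 : ∀ (p q : Fin k → Prop), p = q →
        (if h : ∃ a, p a then h.choose else a0) = (if h : ∃ a, q a then h.choose else a0) := by
      rintro p q rfl; rfl
    exact h1 _ _ this
  · have hsub : {x | f x ≠ g x} ⊆ ⋃ a : Fin k, symmDiff (t a) (f ⁻¹' {a}) := by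
      intro x hx
      by_contra hcon
      simp only [Set.mem_iUnion, not_exists] at hcon
      have key : ∀ a, x ∈ t a ↔ f x = a := by
        intro a
        have := hcon a
        rw [Set.mem_symmDiff] at this
        simp only [Set.mem_preimage, Set.mem_singleton_iff] at this
        tauto
      apply hx
      have h : ∃ a, x ∈ t a := ⟨f x, (key _).2 rfl⟩
      change f x = if h : ∃ a, x ∈ t a then h.choose else a0
      rw [dif_pos h]
      exact (key _).1 h.choose_spec
    have h1 : μ {x | f x ≠ g x} ≤ ENNReal.ofReal δ := by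
      calc μ {x | f x ≠ g x} ≤ μ (⋃ a : Fin k, symmDiff (t a) (f ⁻¹' {a})) := measure_mono hsub
        _ ≤ ∑ a : Fin k, μ (symmDiff (t a) (f ⁻¹' {a})) := measure_iUnion_fintype_le _ _
        _ ≤ ∑ a : Fin k, ENNReal.ofReal (δ / k) := Finset.sum_le_sum fun a _ => (ht2 a).le
        _ = ENNReal.ofReal δ := by
          rw [Finset.sum_const, Finset.card_univ, Fintype.card_fin, nsmul_eq_mul,
            ← ENNReal.ofReal_natCast, ← ENNReal.ofReal_mul (by positivity)]
          congr 1; field_simp
    exact ENNReal.toReal_le_of_le_ofReal hδ.le h1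

/-- window word `x (-N), ..., x (n - 1 + N)` -/
def wordMap (N L : ℕ) (x : ℤ → Bool) : Fin L → Bool := fun j => x (-(N : ℤ) + (j : ℕ))

lemma measurable_wordMap (N L : ℕ) : Measurable (wordMap N L) :=
  measurable_pi_lambda _ fun _ => measurable_pi_apply _

/-- extension of a word to a two-sided sequence -/
def extend (N L : ℕ) (u : Fin L → Bool) : ℤ → Bool := fun z =>
  if h : 0 ≤ z + N ∧ z + N < L then u ⟨(z + N).toNat, by omega⟩ else false

lemma extend_wordMap (N L : ℕ) (x : ℤ → Bool) (z : ℤ) (h0 : 0 ≤ z + N) (h1 : z + N < L) :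
    extend N L (wordMap N L x) z = x z := by
  unfold extend
  rw [dif_pos ⟨h0, h1⟩]
  unfold wordMap
  congr 1
  simp only
  omega

lemma shift_iterate {S : Type*} (i : ℕ) (x : ℤ → S) (z : ℤ) : (shift^[i] x) z = x (z + i) := by
  induction i generalizing x with
  | zero => simp
  | succ i ih =>
    rw [Function.iterate_succ_apply, ih]
    simp only [shift]
    congr 1; push_cast; ring

/-- a.e. word has probability bounded below -/
lemma ae_word_lower (N L : ℕ) (hL : 1 ≤ L) : ∀ᵐ x ∂chainLaw,
    lam⁻¹ ^ 3 / 2 * lam⁻¹ ^ (L - 1) ≤ chainLaw.real (wordMap N L ⁻¹' {wordMap N L x}) := by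
  have hset : ∀ u : Fin L → Bool, wordMap N L ⁻¹' {u} =
      {x | ∀ i : ℕ, i ≤ L - 1 → x (-(N : ℤ) + i) = (fun j : ℕ => if h : j < L then u ⟨j, h⟩ else false) i} := by
    intro u
    ext x
    simp only [Set.mem_preimage, Set.mem_singleton_iff, Set.mem_ofPred_eq]
    constructor
    · intro h i hi
      rw [← h, dif_pos (by omega)]
      rfl
    · intro h
      funext j
      have := h j (by omega)
      rw [dif_pos j.2] at this
      exact this
  have hae : ∀ u : Fin L → Bool, ∀ᵐ x ∂chainLaw, wordMap N L x = u →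
      chainLaw (wordMap N L ⁻¹' {u}) ≠ 0 := by
    intro u
    by_cases h : chainLaw (wordMap N L ⁻¹' {u}) = 0
    · rw [measure_eq_zero_iff_ae_notMem] at h
      filter_upwards [h] with x hx hxu
      exact absurd hxu hx
    · filter_upwards with x _ using h
  have hall : ∀ᵐ x ∂chainLaw, ∀ u : Fin L → Bool, wordMap N L x = u →
      chainLaw (wordMap N L ⁻¹' {u}) ≠ 0 := ae_all_iff.2 hae
  filter_upwards [hall] with x hx
  have h0 := hx _ rfl
  rw [hset] at h0
  have h1 := le_chainLaw_cyl _ _ _ h0
  rw [← hset] at h1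
  have := (ENNReal.ofReal_le_iff_le_toReal (measure_ne_top _ _)).1 h1
  exact this

/-- coding kernel -/
def kap {k : ℕ} (ε : ℝ) (a b : Fin k) : ℝ := if a = b then 1 - ε else ε / k

lemma kap_pos {k : ℕ} {ε : ℝ} (h0 : 0 < ε) (h1 : ε < 1) (a b : Fin k) : 0 < kap ε a b := by
  have hk : (0 : ℝ) < k := by exact_mod_cast a.pos
  unfold kap; split_ifs
  · linarith
  · positivity

lemma sum_kap_le {k : ℕ} {ε : ℝ} (h0 : 0 < ε) (b : Fin k) : ∑ a, kap ε a b ≤ 1 := by
  have hk : (0 : ℝ) < k := by exact_mod_cast b.pos
  calc ∑ a, kap ε a b ≤ ∑ a, ((if a = b then 1 - ε else 0) + ε / k) := by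
        refine Finset.sum_le_sum fun a _ => ?_
        unfold kap
        split_ifs
        · have : 0 ≤ ε / k := by positivity
          linarith
        · linarith
    _ = 1 := by
        rw [Finset.sum_add_distrib]
        simp
        field_simp
        ring

lemma neg_log_kap_le {k : ℕ} {ε : ℝ} (h0 : 0 < ε) (h1 : ε < 1) (a b : Fin k) :
    -Real.log (kap ε a b) ≤ -Real.log (1 - ε) + (if a ≠ b then Real.log (k / ε) else 0) := by
  have hk : (0 : ℝ) < k := by exact_mod_cast a.pos
  unfold kap
  by_cases h : a = b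
  · simp [h]
  · simp only [h, if_false, ne_eq, not_false_eq_true, if_true]
    rw [Real.log_div h0.ne' hk.ne', Real.log_div hk.ne' h0.ne']
    have : Real.log (1 - ε) ≤ 0 := Real.log_nonpos (by linarith) (by linarith)
    linarith

lemma chain_shannon_le {k : ℕ} (f g : (ℤ → Bool) → Fin k) (hf : Measurable f) (N : ℕ)
    (hg : DependsOn g (Set.Icc (-(N : ℤ)) N)) (ε : ℝ) (h0 : 0 < ε) (h1 : ε < 1) (n : ℕ)
    (hn : 1 ≤ n) :
    shannon chainLaw (fun x => fun i : Fin n => f (shift^[i] x)) ≤
      -Real.log (lam⁻¹ ^ 3 / 2) + ((n + 2 * N : ℕ) : ℝ) * Real.log lam +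
        n * (-Real.log (1 - ε)) + n * (chainLaw.real {x | f x ≠ g x} * Real.log (k / ε)) := by
  classical
  set L := n + 2 * N with hLdef
  have hgm : Measurable g := measurable_of_dependsOn hg
  have hFm : Measurable (fun x : ℤ → Bool => fun i : Fin n => f (shift^[i] x)) :=
    measurable_pi_lambda _ fun i => hf.comp (measurable_shift.iterate _)
  let r : (Fin n → Fin k) → ℝ := fun w => ∑ u : Fin L → Bool,
    chainLaw.real (wordMap N L ⁻¹' {u}) * ∏ i : Fin n, kap ε (w i) (g (shift^[i] (extend N L u)))
  have hbadm : MeasurableSet {x | f x ≠ g x} := (measurableSet_eq_fun hf hgm).compl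
  let b : (ℤ → Bool) → ℝ := fun x => (-Real.log (lam⁻¹ ^ 3 / 2) + (L : ℝ) * Real.log lam +
    n * (-Real.log (1 - ε))) + ∑ i : Fin n, (shift^[i] ⁻¹' {x | f x ≠ g x}).indicator
      (fun _ => Real.log (k / ε)) x
  have hpre : ∀ i : ℕ, MeasurableSet (shift^[i] ⁻¹' {x : ℤ → Bool | f x ≠ g x}) := fun i =>
    (measurable_shift.iterate i) hbadm
  have hI : ∀ i : Fin n, Integrable (fun x : ℤ → Bool =>
      (shift^[(i : ℕ)] ⁻¹' {x : ℤ → Bool | f x ≠ g x}).indicator
        (fun _ => Real.log (k / ε)) x) chainLaw :=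
    fun i => (integrable_const _).indicator (hpre i)
  have hIs : Integrable (fun x : ℤ → Bool => ∑ i : Fin n,
      (shift^[(i : ℕ)] ⁻¹' {x : ℤ → Bool | f x ≠ g x}).indicator
        (fun _ => Real.log (k / ε)) x) chainLaw :=
    integrable_finsetSum _ fun i _ => hI i
  have hbint : Integrable b chainLaw := (integrable_const _).add hIs
  have hb : ∫ x, b x ∂chainLaw = -Real.log (lam⁻¹ ^ 3 / 2) + (L : ℝ) * Real.log lam +
        n * (-Real.log (1 - ε)) + n * (chainLaw.real {x | f x ≠ g x} * Real.log (k / ε)) := by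
    rw [integral_add (integrable_const _) hIs, integral_finsetSum _ (fun i _ => hI i)]
    simp only [integral_const, probReal_univ, smul_eq_mul, one_mul]
    congr 1
    have : ∀ i : Fin n, ∫ a, (shift^[i] ⁻¹' {x : ℤ → Bool | f x ≠ g x}).indicator
        (fun _ => Real.log (k / ε)) a ∂chainLaw =
          chainLaw.real {x | f x ≠ g x} * Real.log (k / ε) := by
      intro i
      rw [integral_indicator_const _ (hpre i), smul_eq_mul]
      congr 1
      have := (measurePreserving_shift_chain.iterate i).measure_preimage hbadm.nullMeasurableSet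
      simp only [Measure.real, this]
    rw [Finset.sum_congr rfl fun i _ => this i]
    simp
  rw [← hb]
  refine shannon_le_integral chainLaw _ hFm r ?_ ?_ b hbint ?_
  · intro w
    exact Finset.sum_nonneg fun u _ => mul_nonneg measureReal_nonneg
      (Finset.prod_nonneg fun i _ => (kap_pos h0 h1 _ _).le)
  · calc ∑ w, r w = ∑ u : Fin L → Bool, chainLaw.real (wordMap N L ⁻¹' {u}) *
          ∑ w : Fin n → Fin k, ∏ i : Fin n, kap ε (w i) (g (shift^[i] (extend N L u))) := by
          simp only [r]
          rw [Finset.sum_comm]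
          refine Finset.sum_congr rfl fun u _ => ?_
          rw [Finset.mul_sum]
      _ ≤ ∑ u : Fin L → Bool, chainLaw.real (wordMap N L ⁻¹' {u}) * 1 := by
          refine Finset.sum_le_sum fun u _ => mul_le_mul_of_nonneg_left ?_ measureReal_nonneg
          rw [← Fintype.prod_sum (f := fun (i : Fin n) a => kap ε a (g (shift^[i] (extend N L u))))]
          refine Finset.prod_le_one (fun i _ => Finset.sum_nonneg fun a _ => (kap_pos h0 h1 _ _).le)
            fun i _ => sum_kap_le h0 _
      _ = 1 := by
          simp only [mul_one]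
          have := measureReal_biUnion_finset (μ := chainLaw) (s := (Finset.univ : Finset (Fin L → Bool)))
            (f := fun a => wordMap N L ⁻¹' {a}) (by
              intro a _ b _ hab
              exact Disjoint.preimage _ (Set.disjoint_singleton.2 hab))
              (fun a _ => measurable_wordMap N L (MeasurableSet.singleton a))
          rw [← this]
          have hu : (⋃ a ∈ (Finset.univ : Finset (Fin L → Bool)), wordMap N L ⁻¹' {a}) = Set.univ := by
            ext x; simp
          rw [hu]; simp
  · filter_upwards [ae_word_lower N L (by omega)] with x hx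
    have hli := lam_inv_pos
    have hlp := lam_pos
    have hc : 0 < lam⁻¹ ^ 3 / 2 * lam⁻¹ ^ (L - 1) := by positivity
    set u := wordMap N L x with hu
    have hgx : ∀ i : Fin n, g (shift^[i] (extend N L u)) = g (shift^[i] x) := by
      intro i
      apply hg
      intro z hz
      rw [shift_iterate, shift_iterate, hu]
      apply extend_wordMap
      · have := hz.1; omega
      · have := hz.2; have := i.2; omega
    have hprod : 0 < ∏ i : Fin n, kap ε (f (shift^[i] x)) (g (shift^[i] x)) :=
      Finset.prod_pos fun i _ => kap_pos h0 h1 _ _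
    have hrge : (lam⁻¹ ^ 3 / 2 * lam⁻¹ ^ (L - 1)) *
        ∏ i : Fin n, kap ε (f (shift^[i] x)) (g (shift^[i] x)) ≤
        r (fun i : Fin n => f (shift^[i] x)) := by
      calc _ ≤ chainLaw.real (wordMap N L ⁻¹' {u}) *
            ∏ i : Fin n, kap ε (f (shift^[i] x)) (g (shift^[i] (extend N L u))) := by
            rw [Finset.prod_congr rfl fun i _ => by rw [← hgx i]]
            refine mul_le_mul_of_nonneg_right hx (Finset.prod_nonneg fun i _ => (kap_pos h0 h1 _ _).le)
        _ ≤ _ := by
            simp only [r]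
            exact Finset.single_le_sum (f := fun u : Fin L → Bool =>
              chainLaw.real (wordMap N L ⁻¹' {u}) *
              ∏ i : Fin n, kap ε (f (shift^[i] x)) (g (shift^[i] (extend N L u))))
              (fun u _ => mul_nonneg measureReal_nonneg
                (Finset.prod_nonneg fun i _ => (kap_pos h0 h1 _ _).le)) (Finset.mem_univ u)
    have hpos2 := mul_pos hc hprod
    refine ⟨lt_of_lt_of_le hpos2 hrge, ?_⟩
    have hlog := Real.log_le_log hpos2 hrge
    rw [Real.log_mul hc.ne' hprod.ne', Real.log_prod (fun i _ => (kap_pos h0 h1 _ _).ne'),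
      Real.log_mul (by positivity) (by positivity), Real.log_pow, Real.log_inv] at hlog
    have hL1 : ((L - 1 : ℕ) : ℝ) * Real.log lam ≤ (L : ℝ) * Real.log lam := by
      have : 0 ≤ Real.log lam := Real.log_nonneg one_lt_lam.le
      gcongr
      omega
    have hk : ∑ i : Fin n, -Real.log (kap ε (f (shift^[i] x)) (g (shift^[i] x))) ≤
        n * (-Real.log (1 - ε)) + ∑ i : Fin n, (shift^[i] ⁻¹' {x | f x ≠ g x}).indicator
          (fun _ => Real.log (k / ε)) x := by
      calc _ ≤ ∑ i : Fin n, (-Real.log (1 - ε) + (shift^[i] ⁻¹' {x | f x ≠ g x}).indicator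
            (fun _ => Real.log (k / ε)) x) := by
            refine Finset.sum_le_sum fun i _ => ?_
            refine (neg_log_kap_le h0 h1 _ _).trans ?_
            gcongr
            by_cases hne : f (shift^[i] x) ≠ g (shift^[i] x)
            · rw [if_pos hne, Set.indicator_of_mem (by exact hne)]
            · rw [if_neg hne, Set.indicator_of_notMem (by exact hne)]
        _ = _ := by
            rw [Finset.sum_add_distrib]; simp
    rw [Finset.sum_neg_distrib] at hk
    simp only [b]
    linarith

end

end Pool.Agent.LibGoldenMean
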