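import Pool.Agent.LibGoldenMean.EntropyUpper

/-!
The Kolmogorov-Sinai entropy of the golden-mean chain is at most `log lam`.
-/

open MeasureTheory ProbabilityTheory Filter
open scoped ENNReal

namespace Pool.Agent.LibGoldenMean

theorem ksEntropy_chain_le : ksEntropy chainLaw shift ≤ ENNReal.ofReal (Real.log lam) := by
  unfold ksEntropy
  refine iSup_le fun k => iSup_le fun f => iSup_le fun hf => ?_
  have hloglam : 0 ≤ Real.log lam := Real.log_nonneg one_lt_lam.le
  have key : ∀ e : ℝ, 0 < e → partitionEntropy chainLaw shift f ≤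
      ENNReal.ofReal (Real.log lam + e) := by
    intro e he
    obtain ⟨ε, hε0, hε1, hεe⟩ : ∃ ε : ℝ, 0 < ε ∧ ε < 1 ∧ -Real.log (1 - ε) = e / 3 := by
      refine ⟨1 - Real.exp (-(e / 3)), ?_, ?_, ?_⟩
      · have : Real.exp (-(e / 3)) < 1 := by
          rw [← Real.exp_zero]; exact Real.exp_lt_exp.2 (by linarith)
        linarith
      · have := Real.exp_pos (-(e / 3)); linarith
      · rw [sub_sub_cancel, Real.log_exp, neg_neg]
    set K : ℝ := Real.log (k / ε) with hK
    obtain ⟨N, g, hg, hfg⟩ := exists_local_approx chainLaw f hf (e / (3 * (|K| + 1)))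
      (by have := abs_nonneg K; positivity)
    have hKe : chainLaw.real {x | f x ≠ g x} * K ≤ e / 3 := by
      have h1 : 0 ≤ chainLaw.real {x | f x ≠ g x} := measureReal_nonneg
      have hK0 := abs_nonneg K
      calc chainLaw.real {x | f x ≠ g x} * K ≤ chainLaw.real {x | f x ≠ g x} * |K| :=
            mul_le_mul_of_nonneg_left (le_abs_self K) h1
        _ ≤ e / (3 * (|K| + 1)) * |K| := mul_le_mul_of_nonneg_right hfg hK0
        _ ≤ e / (3 * (|K| + 1)) * (|K| + 1) := by
            apply mul_le_mul_of_nonneg_left _ (by positivity); linarith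
        _ = e / 3 := by field_simp
    set c1 : ℝ := -Real.log (lam⁻¹ ^ 3 / 2) + (2 * N : ℝ) * Real.log lam with hc1
    have hlim : ∀ᶠ n : ℕ in atTop, c1 / n ≤ e / 3 := by
      have : Tendsto (fun n : ℕ => c1 / (n : ℝ)) atTop (nhds 0) :=
        tendsto_const_div_atTop_nhds_zero_nat c1
      exact this.eventually (ge_mem_nhds (by positivity))
    unfold partitionEntropy
    refine limsup_le_of_le (by isBoundedDefault) ?_
    filter_upwards [hlim, eventually_ge_atTop 1] with n hn1 hn2
    apply ENNReal.ofReal_le_ofReal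
    have hn0 : (0 : ℝ) < n := by exact_mod_cast hn2
    have h := chain_shannon_le f g hf N hg ε hε0 hε1 n hn2
    rw [hεe] at h
    rw [div_le_iff₀ hn0]
    have h2 : (n : ℝ) * (chainLaw.real {x | f x ≠ g x} * Real.log (k / ε)) ≤ n * (e / 3) :=
      mul_le_mul_of_nonneg_left hKe hn0.le
    have h3 : c1 ≤ n * (e / 3) := by
      rw [div_le_iff₀ hn0] at hn1
      linarith
    push_cast at h
    have h4 : (Real.log lam + e) * n =
      n * Real.log lam + n * (e / 3) + n * (e / 3) + n * (e / 3) := by ring
    rw [h4]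
    nlinarith
  refine le_of_tendsto_of_tendsto' (b := atTop (α := ℕ)) (f := fun _ => partitionEntropy chainLaw shift f)
    (g := fun n : ℕ => ENNReal.ofReal (Real.log lam + 1 / ((n : ℝ) + 1)))
    tendsto_const_nhds ?_ (fun n => key _ (by positivity))
  have h1 : Tendsto (fun n : ℕ => Real.log lam + 1 / ((n : ℝ) + 1)) atTop
      (nhds (Real.log lam + 0)) :=
    tendsto_const_nhds.add tendsto_one_div_add_atTop_nhds_zero_nat
  rw [add_zero] at h1
  exact (ENNReal.continuous_ofReal.tendsto _).comp h1

end Pool.Agent.LibGoldenMean
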