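import Pool.Agent.LibGoldenMean.Core

/-!
Exponential moments of the product of atoms, and the upper bound for `∫ ν{y}^θ dν(y)`.
-/

open MeasureTheory ProbabilityTheory Filter
open scoped ENNReal

namespace Pool.Agent.LibGoldenMean

noncomputable section

variable {A : Type*} [MeasurableSpace A] (ν : Measure A) [IsProbabilityMeasure ν]
  (φ : (ℤ → A) → (ℤ → Bool)) (D : Set (ℤ → A))

/-- normalised product of atoms -/
def zn (n : ℕ) (y : ℤ → A) : ℝ≥0∞ := ENNReal.ofReal lam ^ n * ∏ i : Fin n, ν {y (i : ℕ)}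

omit [IsProbabilityMeasure ν] in
lemma zn_le (n m : ℕ) (y : ℤ → A)
    (h : ∏ i : Fin n, ν {y (i : ℕ)} ≤ ENNReal.ofReal (lam ^ 2 * (lam ^ 2) ^ m * lam⁻¹ ^ n)) :
    zn ν n y ≤ ENNReal.ofReal (lam ^ 2) * ENNReal.ofReal (lam ^ 2) ^ m := by
  have hlp := lam_pos
  unfold zn
  refine (mul_le_mul_right h _).trans (le_of_eq ?_)
  rw [← ENNReal.ofReal_pow hlp.le, ← ENNReal.ofReal_mul (by positivity),
    ← ENNReal.ofReal_pow (by positivity), ← ENNReal.ofReal_mul (by positivity)]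
  congr 1
  have h2 : lam ^ n * lam⁻¹ ^ n = 1 := by
    rw [← mul_pow, mul_inv_cancel₀ hlp.ne', one_pow]
  calc lam ^ n * (lam ^ 2 * (lam ^ 2) ^ m * lam⁻¹ ^ n)
      = (lam ^ n * lam⁻¹ ^ n) * (lam ^ 2 * (lam ^ 2) ^ m) := by ring
    _ = _ := by rw [h2, one_mul]

lemma moment_bound [MeasurableSingletonClass A] (hφ : Measurable φ)
    (hmap : (iidLaw ν).map φ = chainLaw)
    (heq : ∀ᵐ y ∂(iidLaw ν), φ (shift y) = shift (φ y))
    (hD : ∀ᵐ y ∂(iidLaw ν), y ∈ D) {C c : ℝ} (hC : 0 < C) (hc : 0 < c)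
    (hW : ∀ r : ℕ, iidLaw ν {y | (r : ℕ∞) < codingWindow φ D y} ≤
      ENNReal.ofReal (C * Real.exp (-(c * r))))
    (θ : ℝ) (hθ : 0 < θ)
    (hρ : ENNReal.ofReal (Real.exp (-c)) * ENNReal.ofReal (lam ^ 2) ^ θ < 1) :
    ∃ K : ℝ≥0∞, K ≠ ∞ ∧ ∀ n, ∫⁻ y, (zn ν n y) ^ θ ∂(iidLaw ν) ≤ K := by
  set ρ := ENNReal.ofReal (Real.exp (-c)) with hρdef
  set L := ENNReal.ofReal (lam ^ 2) with hL
  have hρ1 : ρ < 1 := by
    rw [hρdef, ← ENNReal.ofReal_one]
    rw [ENNReal.ofReal_lt_ofReal_iff (by norm_num), ← Real.exp_zero]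
    exact Real.exp_lt_exp.2 (by linarith)
  set K1 : ℝ≥0∞ := 2 * (ENNReal.ofReal C * (1 - ρ)⁻¹) with hK1
  have hK1fin : K1 ≠ ∞ := by
    have h1 : (1 - ρ)⁻¹ ≠ ∞ := by
      rw [Ne, ENNReal.inv_eq_top]
      exact (tsub_pos_of_lt hρ1).ne'
    exact ENNReal.mul_ne_top (by simp) (ENNReal.mul_ne_top ENNReal.ofReal_ne_top h1)
  have hLtop : L ≠ ∞ := ENNReal.ofReal_ne_top
  have hbad : ∀ n m, iidLaw ν (bad φ D n m) ≤ K1 * ρ ^ m := by
    intro n m
    refine (measure_bad_le ν φ D _ hW n m).trans (le_of_eq ?_)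
    have h1 : ∀ j : ℕ, ENNReal.ofReal (C * Real.exp (-(c * ((m + j : ℕ) : ℝ)))) =
        (ENNReal.ofReal C * ρ ^ m) * ρ ^ j := by
      intro j
      rw [hρdef, ← ENNReal.ofReal_pow (Real.exp_pos _).le, ← ENNReal.ofReal_pow (Real.exp_pos _).le,
        ← ENNReal.ofReal_mul hC.le, ← ENNReal.ofReal_mul (by positivity), ← Real.exp_nat_mul,
        ← Real.exp_nat_mul, mul_assoc, ← Real.exp_add]
      congr 3; push_cast; ring
    simp_rw [h1]
    rw [ENNReal.tsum_mul_left, ENNReal.tsum_geometric, hK1]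
    ring
  have hgood := prod_atoms_le ν φ D hφ hmap heq hD
  -- pointwise bound
  have hpt : ∀ n, ∀ᵐ y ∂(iidLaw ν), (zn ν n y) ^ θ ≤ L ^ θ +
      ∑' m, (toMeasurable (iidLaw ν) (bad φ D n m)).indicator
        (fun _ => (L * L ^ (m + 1)) ^ θ) y := by
    intro n
    filter_upwards [hgood] with y hy
    classical
    have hex : ∃ m, y ∉ bad φ D n m := ⟨n, by rw [bad_empty]; simp⟩
    set m0 := Nat.find hex with hm0
    have hspec : y ∉ bad φ D n m0 := Nat.find_spec hex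
    have hz := zn_le ν n m0 y (hy n m0 hspec)
    rcases Nat.eq_zero_or_pos m0 with h0 | h0
    · rw [h0] at hz
      refine le_trans (ENNReal.rpow_le_rpow hz hθ.le) ?_
      rw [← hL, pow_zero, mul_one]
      exact le_self_add
    · have hprev : y ∈ bad φ D n (m0 - 1) := by
        have := Nat.find_min hex (m := m0 - 1) (by omega)
        simpa using this
      refine le_trans (ENNReal.rpow_le_rpow hz hθ.le) ?_
      refine le_trans ?_ le_add_self
      refine le_trans ?_ (ENNReal.le_tsum (m0 - 1))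
      rw [Set.indicator_of_mem (subset_toMeasurable _ _ hprev)]
      have : m0 - 1 + 1 = m0 := by omega
      rw [this]
  refine ⟨L ^ θ + ∑' m, K1 * ρ ^ m * (L * L ^ (m + 1)) ^ θ, ?_, ?_⟩
  · have h1 : ∀ m : ℕ, K1 * ρ ^ m * (L * L ^ (m + 1)) ^ θ =
        (K1 * (L * L) ^ θ) * (ρ * L ^ θ) ^ m := by
      intro m
      have : L * L ^ (m + 1) = (L * L) * L ^ m := by ring
      rw [this, ENNReal.mul_rpow_of_nonneg _ _ hθ.le, mul_pow]
      have h2 : (L ^ m) ^ θ = (L ^ θ) ^ m := by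
        rw [← ENNReal.rpow_natCast, ← ENNReal.rpow_natCast, ← ENNReal.rpow_mul,
          ← ENNReal.rpow_mul, mul_comm]
      rw [h2]; ring
    simp_rw [h1]
    rw [ENNReal.tsum_mul_left, ENNReal.tsum_geometric]
    have h3 : (1 - ρ * L ^ θ)⁻¹ ≠ ∞ := by
      rw [Ne, ENNReal.inv_eq_top]
      exact (tsub_pos_of_lt hρ).ne'
    have h4 : (L * L) ^ θ ≠ ∞ :=
      ENNReal.rpow_ne_top_of_nonneg hθ.le (ENNReal.mul_ne_top hLtop hLtop)
    exact ENNReal.add_ne_top.2 ⟨ENNReal.rpow_ne_top_of_nonneg hθ.le hLtop,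
      ENNReal.mul_ne_top (ENNReal.mul_ne_top hK1fin h4) h3⟩
  · intro n
    refine (lintegral_mono_ae (hpt n)).trans ?_
    rw [lintegral_add_left measurable_const, lintegral_const, measure_univ, mul_one]
    gcongr
    rw [lintegral_tsum]
    · refine ENNReal.tsum_le_tsum fun m => ?_
      rw [lintegral_indicator_const (measurableSet_toMeasurable _ _), measure_toMeasurable, mul_comm]
      gcongr
      exact hbad n m
    · intro m
      exact (measurable_const.indicator (measurableSet_toMeasurable _ _)).aemeasurable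

lemma measurable_atom [MeasurableSpace.CountablySeparated A] :
    Measurable (fun y : A => ν {y}) := by
  obtain ⟨f, hf, hinj⟩ := MeasurableSpace.measurable_injection_nat_bool_of_countablySeparated A
  have h : MeasurableSet {p : A × A | p.2 = p.1} := by
    have h0 : {p : A × A | p.2 = p.1} = {p : A × A | f p.2 = f p.1} := by
      ext p
      exact hinj.eq_iff.symm
    rw [h0]
    exact measurableSet_eq_fun (hf.comp measurable_snd) (hf.comp measurable_fst)
  have := measurable_measure_prodMk_left (ν := ν) h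
  convert! this using 2

lemma lintegral_zn [MeasurableSpace.CountablySeparated A] (θ : ℝ) (hθ : 0 < θ) (n : ℕ) :
    ∫⁻ y, (zn ν n y) ^ θ ∂(iidLaw ν) =
      (ENNReal.ofReal lam ^ θ * ∫⁻ a, ν {a} ^ θ ∂ν) ^ n := by
  have hm := measurable_atom ν
  have hind : iIndepFun (fun (j : ℤ) (y : ℤ → A) => ν {y j} ^ θ) (iidLaw ν) :=
    iIndepFun_infinitePi (P := fun _ : ℤ => ν) (X := fun _ (a : A) => ν {a} ^ θ)
      (fun _ => hm.pow_const θ)
  have hlaw : ∀ j : ℤ, ∫⁻ y, ν {y j} ^ θ ∂(iidLaw ν) = ∫⁻ a, ν {a} ^ θ ∂ν := by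
    intro j
    exact (measurePreserving_eval_infinitePi (fun _ : ℤ => ν) j).lintegral_comp (hm.pow_const θ)
  have h1 : ∀ y : ℤ → A, (zn ν n y) ^ θ =
      (ENNReal.ofReal lam ^ θ) ^ n * ∏ j ∈ (Finset.range n).image (fun i : ℕ => (i : ℤ)), ν {y j} ^ θ := by
    intro y
    unfold zn
    rw [ENNReal.mul_rpow_of_nonneg _ _ hθ.le, Finset.prod_image (by intro a _ b _ h; simpa using h),
      ← Fin.prod_univ_eq_prod_range (fun i : ℕ => ν {y (i : ℤ)} ^ θ) n,
      ENNReal.prod_rpow_of_nonneg hθ.le]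
    congr 1
    rw [← ENNReal.rpow_natCast, ← ENNReal.rpow_natCast, ← ENNReal.rpow_mul,
          ← ENNReal.rpow_mul, mul_comm]
  simp_rw [h1]
  rw [lintegral_const_mul]
  · rw [lintegral_prod_eq_prod_lintegral_of_indepFun _ _ hind
      (fun j => (hm.pow_const θ).comp (measurable_pi_apply j))]
    rw [Finset.prod_congr rfl (fun j _ => hlaw j), Finset.prod_const,
      Finset.card_image_of_injective _ (fun a b h => by simpa using h), Finset.card_range, mul_pow]
  · exact Finset.measurable_prod _ fun j _ => (hm.pow_const θ).comp (measurable_pi_apply j)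

lemma le_one_of_pow_bounded {a K : ℝ≥0∞} (hK : K ≠ ∞) (h : ∀ n : ℕ, a ^ n ≤ K) : a ≤ 1 := by
  by_contra hcon
  push Not at hcon
  have := ENNReal.tendsto_pow_atTop_nhds_top_iff.2 hcon
  have h2 := le_of_tendsto' this h
  exact hK (top_le_iff.1 h2)

end

end Pool.Agent.LibGoldenMean
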